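import Pool.Agent.L7h8.MW.PN1a

/-! # Project MW, part PN1 -/

set_option autoImplicit false

namespace Pool.Agent.L7h8.MW

open Finset MeasureTheory Filter FourierTransform
open scoped ENNReal
open Pool.Agent.H376R2.MR (er phas_integral_er)
open Pool.Agent.Y957.VK (lamw)
open Pool.Agent.L7h88.MW

/-- summable weights -/
noncomputable def vw (k : ℤ) : ℝ := 1 / (1 + |(k:ℝ)|) ^ (3 / 2 : ℝ)

lemma vw_nonneg (k : ℤ) : 0 ≤ vw k := by
  unfold vw
  positivity

lemma vw_summable : Summable vw := by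
  have h : Summable (fun n : ℕ => 1 / (1 + (n:ℝ)) ^ (3 / 2 : ℝ)) := by
    have h1 := (Real.summable_one_div_nat_rpow (p := 3 / 2)).2 (by norm_num)
    have h2 := (summable_nat_add_iff 1).2 h1
    refine h2.congr fun n => ?_
    push_cast
    rw [add_comm]
  rw [summable_int_iff_summable_nat_and_neg]
  constructor
  · refine h.congr fun n => ?_
    unfold vw
    simp
  · refine h.congr fun n => ?_
    unfold vw
    simp

lemma log_pow_le (K : ℕ) {ε : ℝ} (hε : 0 < ε) : ∀ᶠ N : ℕ in atTop, Real.log N ^ K ≤ (N : ℝ) ^ ε := by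
  have h := (isLittleO_log_rpow_rpow_atTop (K : ℝ) hε).bound (c := 1) one_pos
  have h2 := tendsto_natCast_atTop_atTop.eventually h
  filter_upwards [h2, eventually_ge_atTop 1] with N hN hN1
  have hl : 0 ≤ Real.log N := Real.log_natCast_nonneg N
  rw [Real.rpow_natCast, one_mul, Real.norm_of_nonneg (by positivity), Real.norm_of_nonneg (by positivity)] at hN
  exact hN

lemma wt1 (k : ℤ) : 1 / (1 + (k:ℝ) ^ 2) ≤ 2 * vw k := by
  unfold vw
  have h0 : 0 ≤ |(k:ℝ)| := abs_nonneg _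
  have h1 : (1 + |(k:ℝ)|) ^ (3 / 2 : ℝ) ≤ (1 + |(k:ℝ)|) ^ (2:ℝ) :=
    Real.rpow_le_rpow_of_exponent_le (by linarith) (by norm_num)
  have h2 : (1 + |(k:ℝ)|) ^ (2:ℝ) ≤ 2 * (1 + (k:ℝ) ^ 2) := by
    rw [Real.rpow_two, ← sq_abs (k:ℝ)]
    nlinarith [sq_nonneg (1 - |(k:ℝ)|)]
  have h3 : 0 < (1 + |(k:ℝ)|) ^ (3 / 2 : ℝ) := by positivity
  rw [mul_one_div, div_le_div_iff₀ (by positivity) h3]
  linarith

lemma wt2 (k : ℤ) {Q : ℝ} (hQ : 0 < Q) (hk : Q ≤ 1 + |(k:ℝ)|) : 1 / (1 + (k:ℝ) ^ 2) ≤ 2 * vw k * (1 / Q ^ (1 / 2 : ℝ)) := by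
  unfold vw
  have h0 : 0 ≤ |(k:ℝ)| := abs_nonneg _
  have h1 : (1 + |(k:ℝ)|) ^ (3 / 2 : ℝ) * Q ^ (1 / 2 : ℝ) ≤ (1 + |(k:ℝ)|) ^ (2:ℝ) := by
    have : (1 + |(k:ℝ)|) ^ (2:ℝ) = (1 + |(k:ℝ)|) ^ (3 / 2 : ℝ) * (1 + |(k:ℝ)|) ^ (1 / 2 : ℝ) := by
      rw [← Real.rpow_add (by linarith)]
      norm_num
    rw [this]
    apply mul_le_mul_of_nonneg_left _ (by positivity)
    exact Real.rpow_le_rpow hQ.le hk (by norm_num)
  have h2 : (1 + |(k:ℝ)|) ^ (2:ℝ) ≤ 2 * (1 + (k:ℝ) ^ 2) := by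
    rw [Real.rpow_two, ← sq_abs (k:ℝ)]
    nlinarith [sq_nonneg (1 - |(k:ℝ)|)]
  have h3 : 0 < (1 + |(k:ℝ)|) ^ (3 / 2 : ℝ) := by positivity
  have h4 : 0 < Q ^ (1 / 2 : ℝ) := by positivity
  rw [mul_one_div, mul_one_div, div_div, div_le_div_iff₀ (by positivity) (by positivity)]
  linarith

lemma lamw_le (n : ℕ) : ‖lamw n‖ ≤ 1 + Real.log n := by
  unfold lamw
  refine (norm_sub_le _ _).trans ?_
  rw [norm_one, Complex.norm_real, Real.norm_of_nonneg ArithmeticFunction.vonMangoldt_nonneg]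
  have := ArithmeticFunction.vonMangoldt_le_log (n := n)
  linarith

lemma sum_sq_le {N : ℕ} (hN : 8 ≤ N) : ∑ n ∈ Ioc N (8 * N), ‖lamw n‖ ^ 2 ≤ 63 * N * Real.log N ^ 2 := by
  have hNr : (8:ℝ) ≤ N := by exact_mod_cast hN
  have hl1 : 1 ≤ Real.log N := by
    rw [Real.le_log_iff_exp_le (by linarith)]
    have := Real.exp_one_lt_d9
    linarith
  have hl8 : Real.log (8 * N) ≤ 2 * Real.log N := by
    rw [Real.log_mul (by norm_num) (by positivity)]
    have := Real.log_le_log (by norm_num) hNr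
    linarith
  have h1 : ∀ n ∈ Ioc N (8 * N), ‖lamw n‖ ^ 2 ≤ (3 * Real.log N) ^ 2 := by
    intro n hn
    rw [Finset.mem_Ioc] at hn
    apply pow_le_pow_left₀ (norm_nonneg _)
    refine (lamw_le n).trans ?_
    have h2 : Real.log n ≤ Real.log (8 * N) := by
      apply Real.log_le_log (by exact_mod_cast (by omega : 0 < n))
      exact_mod_cast hn.2
    linarith
  refine (Finset.sum_le_sum h1).trans ?_
  rw [Finset.sum_const, Nat.card_Ioc, nsmul_eq_mul, Nat.cast_sub (by omega)]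
  push_cast
  apply le_of_eq
  ring

theorem s_PN1 : S_MVT → S_LL → S_PN1 := by
  intro hMVT hLL A C
  obtain ⟨C0, hC0, hM⟩ := hMVT
  obtain ⟨D, N0, hD, hN0, hL⟩ := hLL A C
  have hev1 := log_pow_le C (ε := 1 / 2) (by norm_num)
  have hev2 := log_pow_le (A + 2) (ε := 1 / 4) (by norm_num)
  obtain ⟨N1, hN1⟩ := eventually_atTop.1 (hev1.and hev2)
  have hS0 : 0 ≤ ∑' k, vw k := tsum_nonneg vw_nonneg
  refine ⟨40 * (D + 567 * C0) * ∑' k, vw k, max (max N0 N1) 8, by positivity, le_max_of_le_right (by norm_num), ?_⟩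
  intro N δ hN hδ hδ1 hδN
  have hNN0 : N0 ≤ N := (le_max_left _ _).trans ((le_max_left _ _).trans hN)
  have hNN1 : N1 ≤ N := (le_max_right _ _).trans ((le_max_left _ _).trans hN)
  have hN8 : 8 ≤ N := (le_max_right _ _).trans hN
  obtain ⟨hC1, hC2⟩ := hN1 N hNN1
  have hNr : (8:ℝ) ≤ N := by exact_mod_cast hN8
  have hNp : (0:ℝ) < N := by linarith
  have hl1 : 1 ≤ Real.log N := by
    rw [Real.le_log_iff_exp_le hNp]
    have := Real.exp_one_lt_d9
    linarith
  obtain ⟨l, hl⟩ : ∃ l : ℝ, l = Real.log N := ⟨_, rfl⟩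
  rw [← hl] at hC1 hC2 hl1 hδN ⊢
  have hlp : 0 < l := by linarith
  have hsq : √(N:ℝ) * √(N:ℝ) = N := Real.mul_self_sqrt hNp.le
  have hsp : 0 < √(N:ℝ) := Real.sqrt_pos.2 hNp
  have hLd : 1 / δ ≤ √(N:ℝ) * l ^ C := by
    rw [div_le_iff₀ hδ]
    linarith
  have hLd2 : 1 / δ ≤ N := by
    refine hLd.trans ?_
    rw [← Real.sqrt_eq_rpow] at hC1
    calc √(N:ℝ) * l ^ C ≤ √(N:ℝ) * √(N:ℝ) := mul_le_mul_of_nonneg_left hC1 hsp.le
      _ = N := hsq
  -- the main bound for the cells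
  obtain ⟨W, hW⟩ : ∃ W : ℝ, W = (D + 567 * C0) * N ^ 2 / l ^ A := ⟨_, rfl⟩
  have hWp : 0 ≤ W := by rw [hW]; positivity
  have hcell : ∀ k : ℤ, ∃ B : ℝ, ∫ η in (-((k:ℝ) + 1) / δ)..(-((k:ℝ) + 1) / δ + 1 / δ), ‖DS lamw (Ioc N (8 * N)) η‖ ^ 2 ≤ B ∧
      20 * δ ^ 2 * B / (1 + (k:ℝ) ^ 2) ≤ 40 * δ ^ 2 * W * vw k := by
    intro k
    rcases le_or_gt (|-((k:ℝ) + 1) / δ|) (N * l ^ C) with hk | hk
    · refine ⟨D * N ^ 2 / l ^ A, ?_, ?_⟩
      · have := hL N N (8 * N) (-((k:ℝ) + 1) / δ) (1 / δ) hNN0 le_rfl (by omega) (by omega) (by positivity)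
          (by rw [← hl]; exact hLd) (by rw [← hl]; exact hk)
        rw [← hl] at this
        exact this
      · have h1 := wt1 k
        have h2 : D * N ^ 2 / l ^ A ≤ W := by
          rw [hW]
          gcongr
          linarith
        calc 20 * δ ^ 2 * (D * N ^ 2 / l ^ A) / (1 + (k:ℝ) ^ 2) = 20 * δ ^ 2 * (D * N ^ 2 / l ^ A) * (1 / (1 + (k:ℝ) ^ 2)) := by ring
          _ ≤ 20 * δ ^ 2 * W * (2 * vw k) := by
              apply mul_le_mul (mul_le_mul_of_nonneg_left h2 (by positivity)) h1 (by positivity) (by positivity)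
          _ = _ := by ring
    · refine ⟨C0 * (N + 8 * N) * (63 * N * l ^ 2), ?_, ?_⟩
      · have := hM lamw (Ioc N (8 * N)) (8 * N) (-((k:ℝ) + 1) / δ) (1 / δ) (by linarith) (by
          intro n hn
          rw [Finset.mem_Ioc] at hn
          exact ⟨by omega, by exact_mod_cast hn.2⟩) (by positivity)
        refine this.trans ?_
        have h3 := sum_sq_le hN8
        rw [← hl] at h3
        apply mul_le_mul _ h3 (by positivity) (by positivity)
        apply mul_le_mul_of_nonneg_left _ (by linarith)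
        linarith
      · have h4 : √(N:ℝ) ≤ 1 + |(k:ℝ)| := by
          rw [abs_div, abs_of_pos hδ, lt_div_iff₀ hδ, abs_neg] at hk
          have h5 : |(k:ℝ) + 1| ≤ |(k:ℝ)| + 1 := by
            have := abs_add_le (k:ℝ) 1
            rwa [abs_one] at this
          have h6 : √(N:ℝ) ≤ N * l ^ C * δ := by
            calc √(N:ℝ) = √(N:ℝ) * 1 := (mul_one _).symm
              _ ≤ √(N:ℝ) * (δ * √(N:ℝ) * l ^ C) := mul_le_mul_of_nonneg_left hδN hsp.le
              _ = (√(N:ℝ) * √(N:ℝ)) * l ^ C * δ := by ring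
              _ = _ := by rw [hsq]
          linarith
        have h7 := wt2 k hsp h4
        have h8 : √(N:ℝ) ^ (1 / 2 : ℝ) = (N:ℝ) ^ (1 / 4 : ℝ) := by
          rw [Real.sqrt_eq_rpow, ← Real.rpow_mul hNp.le]
          norm_num
        rw [h8] at h7
        have hN4 : 0 < (N:ℝ) ^ (1 / 4 : ℝ) := by positivity
        have h9 : l ^ 2 / (N:ℝ) ^ (1 / 4 : ℝ) ≤ 1 / l ^ A := by
          rw [div_le_div_iff₀ hN4 (by positivity), one_mul, ← pow_add, add_comm 2 A]
          exact hC2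
        have h10 : 567 * C0 * N ^ 2 * (1 / l ^ A) ≤ W := by
          rw [hW, mul_one_div]
          gcongr
          linarith
        calc 20 * δ ^ 2 * (C0 * (N + 8 * N) * (63 * N * l ^ 2)) / (1 + (k:ℝ) ^ 2)
            = 20 * δ ^ 2 * (567 * C0 * N ^ 2 * l ^ 2) * (1 / (1 + (k:ℝ) ^ 2)) := by ring
          _ ≤ 20 * δ ^ 2 * (567 * C0 * N ^ 2 * l ^ 2) * (2 * vw k * (1 / (N:ℝ) ^ (1 / 4 : ℝ))) :=
              mul_le_mul_of_nonneg_left h7 (by positivity)
          _ = 40 * δ ^ 2 * (567 * C0 * N ^ 2 * (l ^ 2 / (N:ℝ) ^ (1 / 4 : ℝ))) * vw k := by ring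
          _ ≤ 40 * δ ^ 2 * (567 * C0 * N ^ 2 * (1 / l ^ A)) * vw k := by
              have := vw_nonneg k
              gcongr
          _ ≤ 40 * δ ^ 2 * W * vw k := by
              have := vw_nonneg k
              gcongr
  choose B hB1 hB2 using hcell
  have hcl := cells lamw (Ioc N (8 * N)) hδ B hB1
  have htot : ∫⁻ u, ‖∑ n ∈ Ioc N (8 * N), lamw n * bx δ (u + Real.log n)‖ₑ ^ 2 ≤
      ENNReal.ofReal (40 * δ ^ 2 * W * ∑' k, vw k) := by
    refine hcl.trans ?_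
    rw [← tsum_mul_left, ENNReal.ofReal_tsum_of_nonneg (fun k => by
      have := vw_nonneg k
      positivity) (vw_summable.mul_left _)]
    exact ENNReal.tsum_le_tsum fun k => ENNReal.ofReal_le_ofReal (hB2 k)
  -- the integral
  have hfin : 40 * δ ^ 2 * W * ∑' k, vw k = 40 * (D + 567 * C0) * (∑' k, vw k) * δ ^ 2 * N ^ 2 / l ^ A := by
    rw [hW]
    ring
  rw [← hfin]
  obtain ⟨G, hG⟩ : ∃ G : ℝ → ℝ, G = fun u => ‖∑ n ∈ Ioc N (8 * N), lamw n * bx δ (u + Real.log n)‖ ^ 2 := ⟨_, rfl⟩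
  have hGm : Measurable G := by
    rw [hG]
    refine (Measurable.norm ?_).pow_const 2
    refine Finset.measurable_fun_sum _ fun n _ => ?_
    exact ((bx_meas δ).comp (measurable_add_const _)).const_mul _
  have hG0 : ∀ u, 0 ≤ G u := fun u => by rw [hG]; positivity
  have heq : ∫ y in l..(l + 1), ‖∑ n ∈ (Icc 1 ⌊Real.exp (y + δ)⌋₊).filter (fun n : ℕ => y < Real.log n), lamw n‖ ^ 2 =
      ∫ y in l..(l + 1), G (-y) := by
    apply intervalIntegral.integral_congr
    intro y hy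
    rw [Set.uIcc_of_le (by linarith)] at hy
    rw [hG]
    simp only
    congr 2
    have hys : (Icc 1 ⌊Real.exp (y + δ)⌋₊).filter (fun n : ℕ => y < Real.log n) =
        (Ioc N (8 * N)).filter (fun n : ℕ => -y + Real.log n ∈ Set.Ioc 0 δ) := by
      ext n
      rw [Finset.mem_filter, Finset.mem_filter, Finset.mem_Icc, Finset.mem_Ioc, Set.mem_Ioc,
        Nat.le_floor_iff (Real.exp_pos _).le]
      constructor
      · rintro ⟨⟨h1, h2⟩, h3⟩
        have hnp : (0:ℝ) < n := by exact_mod_cast (by omega : 0 < n)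
        have h4 : Real.log n ≤ y + δ := by
          rw [Real.log_le_iff_le_exp hnp]
          exact h2
        refine ⟨⟨?_, ?_⟩, by linarith, by linarith⟩
        · have h5 : Real.log N < Real.log n := by rw [← hl]; linarith [hy.1]
          have := (Real.log_lt_log_iff hNp hnp).1 h5
          exact_mod_cast this
        · have h6 : (n:ℝ) ≤ 8 * N := by
            refine h2.trans ?_
            have h7 : Real.exp (y + δ) ≤ Real.exp (1 + 1 + l) := Real.exp_le_exp.2 (by linarith [hy.2])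
            refine h7.trans ?_
            rw [Real.exp_add, Real.exp_add, hl, Real.exp_log hNp]
            apply mul_le_mul_of_nonneg_right _ hNp.le
            have := Real.exp_one_lt_d9
            nlinarith [Real.exp_pos 1]
          exact_mod_cast h6
      · rintro ⟨⟨h1, h2⟩, h3, h4⟩
        have hnp : (0:ℝ) < n := by exact_mod_cast (by omega : 0 < n)
        refine ⟨⟨by omega, ?_⟩, by linarith⟩
        rw [← Real.log_le_iff_le_exp hnp]
        linarith
    rw [hys, Finset.sum_filter]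
    refine Finset.sum_congr rfl fun n _ => ?_
    unfold bx
    by_cases h : -y + Real.log n ∈ Set.Ioc 0 δ
    · rw [if_pos h, Set.indicator_of_mem h, mul_one]
    · rw [if_neg h, Set.indicator_of_notMem h, mul_zero]
  rw [heq, intervalIntegral.integral_of_le (by linarith)]
  have hGm2 : Measurable (fun y => G (-y)) := hGm.comp measurable_neg
  rw [integral_eq_lintegral_of_nonneg_ae (Eventually.of_forall fun y => hG0 _) hGm2.aestronglyMeasurable]
  refine ENNReal.toReal_le_of_le_ofReal (by positivity) ?_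
  refine (setLIntegral_le_lintegral _ _).trans ?_
  have h11 : ∫⁻ y, ENNReal.ofReal (G (-y)) = ∫⁻ y, ENNReal.ofReal (G y) :=
    lintegral_neg_eq_self (fun y => ENNReal.ofReal (G y))
  rw [h11]
  refine le_trans (le_of_eq ?_) htot
  refine lintegral_congr fun u => ?_
  rw [hG, ← ofReal_norm, ENNReal.ofReal_pow (norm_nonneg _)]

end Pool.Agent.L7h8.MW
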