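import Pool.Agent.L7h88.MW.Stm2
import Pool.Agent.N798.H.PL2

/-! # Project MW, part PN1: Plancherel for the short windows on the logarithmic scale -/

set_option autoImplicit false

namespace Pool.Agent.L7h8.MW

open Finset MeasureTheory Filter FourierTransform
open scoped ENNReal
open Pool.Agent.H376R2.MR (er phas_integral_er)
open Pool.Agent.Y957.AD (four_shift memLp_of_bdd er_norm er_zero er_add)
open Pool.Agent.Y957.VK (four_fsum four_smulc lamw)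
open Pool.Agent.N499.T (four_eq H_int)
open Pool.Agent.L7h88.MW

/-- indicator of `(0, δ]` -/
noncomputable def bx (δ : ℝ) (y : ℝ) : ℂ := (Set.Ioc 0 δ).indicator (fun _ => (1:ℂ)) y

lemma bx_le (δ y : ℝ) : ‖bx δ y‖ ≤ 1 := by
  unfold bx
  by_cases h : y ∈ Set.Ioc 0 δ
  · rw [Set.indicator_of_mem h, norm_one]
  · rw [Set.indicator_of_notMem h, norm_zero]
    exact zero_le_one

lemma bx_meas (δ : ℝ) : Measurable (bx δ) := by
  unfold bx
  exact measurable_const.indicator measurableSet_Ioc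

lemma bx_int (δ : ℝ) : Integrable (bx δ) := by
  have h1 : IntegrableOn (fun _ : ℝ => (1:ℂ)) (Set.Ioc 0 δ) := by
    refine Measure.integrableOn_of_bounded (M := 1) (by simp) aestronglyMeasurable_const ?_
    exact Eventually.of_forall fun y => by simp
  exact (integrable_indicator_iff measurableSet_Ioc).2 h1

lemma bx_four {δ : ℝ} (hδ : 0 ≤ δ) (ξ : ℝ) : 𝓕 (bx δ) ξ = ∫ y in (0:ℝ)..δ, er (-(2 * Real.pi * ξ)) y := by
  rw [four_eq, intervalIntegral.integral_of_le hδ, ← integral_indicator measurableSet_Ioc]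
  congr 1
  funext y
  unfold bx
  by_cases h : y ∈ Set.Ioc 0 δ
  · rw [Set.indicator_of_mem h, Set.indicator_of_mem h, one_mul]
  · rw [Set.indicator_of_notMem h, Set.indicator_of_notMem h, zero_mul]

lemma bx_four_le {δ : ℝ} (hδ : 0 ≤ δ) (ξ : ℝ) : ‖𝓕 (bx δ) ξ‖ ≤ δ := by
  rw [bx_four hδ]
  have h := intervalIntegral.norm_integral_le_of_norm_le_const (a := (0:ℝ)) (b := δ) (C := 1)
    (f := fun y => er (-(2 * Real.pi * ξ)) y) (fun x _ => (er_norm _ _).le)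
  rwa [sub_zero, abs_of_nonneg hδ, one_mul] at h

lemma bx_four_cell {δ : ℝ} (hδ : 0 < δ) (k : ℤ) (ξ : ℝ) (h : ℝ) (hh : h = 1 / (2 * Real.pi * δ))
    (h1 : k * h ≤ ξ) (h2 : ξ ≤ (k + 1) * h) : ‖𝓕 (bx δ) ξ‖ ^ 2 ≤ 20 * δ ^ 2 / (1 + (k:ℝ) ^ 2) := by
  have hpi := Real.pi_pos
  have hb := bx_four_le hδ.le ξ
  have hn := norm_nonneg (𝓕 (bx δ) ξ)
  have e1 : 2 * Real.pi * h = 1 / δ := by rw [hh]; field_simp
  have a1 : (k:ℝ) * (1 / δ) ≤ 2 * Real.pi * ξ := by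
    rw [← e1]
    have := mul_le_mul_of_nonneg_left h1 (by positivity : (0:ℝ) ≤ 2 * Real.pi)
    linarith
  have a2 : 2 * Real.pi * ξ ≤ ((k:ℝ) + 1) * (1 / δ) := by
    rw [← e1]
    have := mul_le_mul_of_nonneg_left h2 (by positivity : (0:ℝ) ≤ 2 * Real.pi)
    linarith
  have hd : 0 < 1 / δ := by positivity
  have hk1 : (0:ℝ) < 1 + (k:ℝ) ^ 2 := by positivity
  rw [le_div_iff₀ hk1]
  rcases le_or_gt (|(k:ℝ)|) 1 with hk | hk
  · have h3 : (k:ℝ) ^ 2 ≤ 1 := by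
      rw [← sq_abs]
      exact pow_le_one₀ (abs_nonneg _) hk
    have h4 : ‖𝓕 (bx δ) ξ‖ ^ 2 ≤ δ ^ 2 := pow_le_pow_left₀ hn hb 2
    calc ‖𝓕 (bx δ) ξ‖ ^ 2 * (1 + (k:ℝ) ^ 2) ≤ δ ^ 2 * 2 := mul_le_mul h4 (by linarith) hk1.le (by positivity)
      _ ≤ 20 * δ ^ 2 := by nlinarith [sq_nonneg δ]
  · have hk2 : (2:ℝ) ≤ |(k:ℝ)| := by
      have h5 : (1:ℤ) < |k| := by
        have : ((1:ℤ):ℝ) < ((|k| : ℤ) : ℝ) := by push_cast; exact hk
        exact_mod_cast this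
      have h6 : (2:ℤ) ≤ |k| := h5
      have : ((2:ℤ):ℝ) ≤ ((|k| : ℤ) : ℝ) := by exact_mod_cast h6
      push_cast at this
      exact this
    have h7 : |(k:ℝ)| / 2 * (1 / δ) ≤ |2 * Real.pi * ξ| := by
      rcases le_or_gt 0 (k:ℝ) with h0 | h0
      · rw [abs_of_nonneg h0]
        have : (k:ℝ) / 2 * (1 / δ) ≤ (k:ℝ) * (1 / δ) := by
          apply mul_le_mul_of_nonneg_right _ hd.le
          linarith
        exact (this.trans a1).trans (le_abs_self _)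
      · rw [abs_of_neg h0] at hk2 ⊢
        have : ((k:ℝ) + 1) * (1 / δ) ≤ -(-(k:ℝ) / 2 * (1 / δ)) := by
          rw [← neg_mul]
          apply mul_le_mul_of_nonneg_right _ hd.le
          linarith
        have h8 := a2.trans this
        have := neg_le_abs (2 * Real.pi * ξ)
        linarith
    have hpos : 0 < |2 * Real.pi * ξ| := lt_of_lt_of_le (by positivity) h7
    have h9 : ‖𝓕 (bx δ) ξ‖ ≤ 2 / |2 * Real.pi * ξ| := by
      rw [bx_four hδ.le]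
      have := phas_integral_er (-(2 * Real.pi * ξ)) 0 δ (by
        intro h
        rw [neg_eq_zero] at h
        rw [h, abs_zero] at hpos
        exact lt_irrefl _ hpos)
      rwa [abs_neg] at this
    have h10 : ‖𝓕 (bx δ) ξ‖ ≤ 4 * δ / |(k:ℝ)| := by
      refine h9.trans ?_
      rw [div_le_div_iff₀ hpos (by linarith)]
      have : |(k:ℝ)| = |(k:ℝ)| / 2 * (1 / δ) * (2 * δ) := by field_simp
      calc 2 * |(k:ℝ)| = 2 * (|(k:ℝ)| / 2 * (1 / δ) * (2 * δ)) := by rw [← this]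
        _ ≤ 2 * (|2 * Real.pi * ξ| * (2 * δ)) := by gcongr
        _ = 4 * δ * |2 * Real.pi * ξ| := by ring
    have h11 : ‖𝓕 (bx δ) ξ‖ ^ 2 ≤ (4 * δ / |(k:ℝ)|) ^ 2 := pow_le_pow_left₀ hn h10 2
    rw [div_pow, sq_abs] at h11
    have hk4 : (4:ℝ) ≤ (k:ℝ) ^ 2 := by
      rw [← sq_abs]
      nlinarith
    calc ‖𝓕 (bx δ) ξ‖ ^ 2 * (1 + (k:ℝ) ^ 2) ≤ (4 * δ) ^ 2 / (k:ℝ) ^ 2 * (1 + (k:ℝ) ^ 2) :=
          mul_le_mul_of_nonneg_right h11 hk1.le
      _ ≤ 20 * δ ^ 2 := by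
          rw [div_mul_eq_mul_div, div_le_iff₀ (by linarith)]
          nlinarith [sq_nonneg δ, mul_nonneg (sq_nonneg δ) (sub_nonneg.2 hk4)]

lemma planch (a : ℕ → ℂ) (s : Finset ℕ) (δ : ℝ) :
    ∫⁻ u, ‖∑ n ∈ s, a n * bx δ (u + Real.log n)‖ₑ ^ 2 =
      ∫⁻ ξ, ‖DS a s (-(2 * Real.pi) * ξ)‖ₑ ^ 2 * ‖𝓕 (bx δ) ξ‖ₑ ^ 2 := by
  have hFi : Integrable (fun u => ∑ n ∈ s, a n * bx δ (u + Real.log n)) :=
    integrable_finsetSum _ fun n _ => ((bx_int δ).comp_add_right _).const_mul _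
  have hFb : ∀ u, ‖∑ n ∈ s, a n * bx δ (u + Real.log n)‖ ≤ ∑ n ∈ s, ‖a n‖ := by
    intro u
    refine (norm_sum_le _ _).trans (Finset.sum_le_sum fun n _ => ?_)
    rw [norm_mul]
    exact mul_le_of_le_one_right (norm_nonneg _) (bx_le _ _)
  rw [← Pool.Agent.TH794.QD.plancherel _ hFi (memLp_of_bdd hFi hFb)]
  refine lintegral_congr fun ξ => ?_
  have h2 : 𝓕 (fun u => ∑ n ∈ s, a n * bx δ (u + Real.log n)) ξ = DS a s (-(2 * Real.pi) * ξ) * 𝓕 (bx δ) ξ := by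
    unfold DS
    rw [four_fsum _ _ fun n _ => ((bx_int δ).comp_add_right _).const_mul _, Finset.sum_mul]
    refine Finset.sum_congr rfl fun n _ => ?_
    rw [four_smulc, four_shift, show -(-(2 * Real.pi) * ξ) = 2 * Real.pi * ξ by ring]
    ring
  rw [h2, enorm_mul, mul_pow]

lemma DS_cont (a : ℕ → ℂ) (s : Finset ℕ) : Continuous (DS a s) := by
  unfold DS er
  fun_prop

lemma cells (a : ℕ → ℂ) (s : Finset ℕ) {δ : ℝ} (hδ : 0 < δ) (B : ℤ → ℝ)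
    (hB : ∀ k : ℤ, ∫ η in (-((k:ℝ) + 1) / δ)..(-((k:ℝ) + 1) / δ + 1 / δ), ‖DS a s η‖ ^ 2 ≤ B k) :
    ∫⁻ u, ‖∑ n ∈ s, a n * bx δ (u + Real.log n)‖ₑ ^ 2 ≤ ∑' k : ℤ, ENNReal.ofReal (20 * δ ^ 2 * B k / (1 + (k:ℝ) ^ 2)) := by
  have hpi := Real.pi_pos
  have hpi3 := Real.pi_gt_three
  rw [planch]
  obtain ⟨h, hh⟩ : ∃ h : ℝ, h = 1 / (2 * Real.pi * δ) := ⟨_, rfl⟩
  have hh0 : 0 < h := by rw [hh]; positivity
  have e1 : 2 * Real.pi * h = 1 / δ := by rw [hh]; field_simp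
  have hU : ⋃ k : ℤ, Set.Ico (k • h) ((k + 1) • h) = Set.univ := iUnion_Ico_zsmul hh0
  have hD := Set.pairwise_disjoint_Ico_zsmul h
  rw [← setLIntegral_univ, ← hU, lintegral_iUnion (fun _ => measurableSet_Ico) hD]
  refine ENNReal.tsum_le_tsum fun k => ?_
  have hk0 : (0:ℝ) < 1 + (k:ℝ) ^ 2 := by positivity
  have hco : Continuous (fun ξ : ℝ => ‖DS a s (-(2 * Real.pi) * ξ)‖ ^ 2) :=
    ((DS_cont a s).comp (continuous_const.mul continuous_id)).norm.pow 2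
  have h1 : ∫⁻ ξ in Set.Ico (k • h) ((k + 1) • h), ‖DS a s (-(2 * Real.pi) * ξ)‖ₑ ^ 2 * ‖𝓕 (bx δ) ξ‖ₑ ^ 2 ≤
      ∫⁻ ξ in Set.Ico (k • h) ((k + 1) • h), ENNReal.ofReal (‖DS a s (-(2 * Real.pi) * ξ)‖ ^ 2) *
        ENNReal.ofReal (20 * δ ^ 2 / (1 + (k:ℝ) ^ 2)) := by
    refine setLIntegral_mono' measurableSet_Ico fun ξ hξ => ?_
    rw [zsmul_eq_mul, zsmul_eq_mul] at hξ
    push_cast at hξ
    have e2 : ∀ z : ℂ, ‖z‖ₑ ^ 2 = ENNReal.ofReal (‖z‖ ^ 2) := fun z => by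
      rw [← ofReal_norm, ENNReal.ofReal_pow (norm_nonneg _)]
    rw [e2, e2]
    exact mul_le_mul' le_rfl (ENNReal.ofReal_le_ofReal (bx_four_cell hδ k ξ h hh hξ.1 hξ.2.le))
  refine h1.trans ?_
  rw [lintegral_mul_const' _ _ ENNReal.ofReal_ne_top]
  have hle : (k:ℤ) • h ≤ (k + 1) • h := by
    rw [add_zsmul, one_zsmul]
    linarith
  have h2 : ∫⁻ ξ in Set.Ico (k • h) ((k + 1) • h), ENNReal.ofReal (‖DS a s (-(2 * Real.pi) * ξ)‖ ^ 2) =
      ENNReal.ofReal (∫ ξ in (k • h)..((k + 1) • h), ‖DS a s (-(2 * Real.pi) * ξ)‖ ^ 2) := by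
    rw [intervalIntegral.integral_of_le hle, ← integral_Ico_eq_integral_Ioc]
    rw [ofReal_integral_eq_lintegral_ofReal]
    · exact (hco.integrableOn_Icc).mono_set Set.Ico_subset_Icc_self
    · exact Eventually.of_forall fun ξ => by positivity
  have h3 : ∫ ξ in (k • h)..((k + 1) • h), ‖DS a s (-(2 * Real.pi) * ξ)‖ ^ 2 =
      (2 * Real.pi)⁻¹ * ∫ η in (-((k:ℝ) + 1) / δ)..(-((k:ℝ) + 1) / δ + 1 / δ), ‖DS a s η‖ ^ 2 := by
    rw [intervalIntegral.integral_comp_mul_left (fun η => ‖DS a s η‖ ^ 2) (by simp)]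
    rw [intervalIntegral.integral_symm, zsmul_eq_mul, zsmul_eq_mul]
    have e3 : -(2 * Real.pi) * (((k + 1 : ℤ) : ℝ) * h) = -((k:ℝ) + 1) / δ := by
      push_cast
      calc -(2 * Real.pi) * (((k:ℝ) + 1) * h) = -((k:ℝ) + 1) * (2 * Real.pi * h) := by ring
        _ = _ := by rw [e1]; ring
    have e4 : -(2 * Real.pi) * ((k : ℝ) * h) = -((k:ℝ) + 1) / δ + 1 / δ := by
      calc -(2 * Real.pi) * ((k:ℝ) * h) = -(k:ℝ) * (2 * Real.pi * h) := by ring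
        _ = _ := by rw [e1]; ring
    rw [e3, e4, smul_eq_mul]
    rw [inv_neg]
    ring
  rw [h2, h3, ← ENNReal.ofReal_mul (by
    have : 0 ≤ ∫ η in (-((k:ℝ) + 1) / δ)..(-((k:ℝ) + 1) / δ + 1 / δ), ‖DS a s η‖ ^ 2 := by
      apply intervalIntegral.integral_nonneg
      · have : 0 < 1 / δ := by positivity
        linarith
      · intro u _
        positivity
    positivity)]
  apply ENNReal.ofReal_le_ofReal
  have h0 : 0 ≤ ∫ η in (-((k:ℝ) + 1) / δ)..(-((k:ℝ) + 1) / δ + 1 / δ), ‖DS a s η‖ ^ 2 := by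
    apply intervalIntegral.integral_nonneg
    · have : 0 < 1 / δ := by positivity
      linarith
    · intro u _
      positivity
  have h5 : (2 * Real.pi)⁻¹ ≤ 1 := by
    apply inv_le_one_of_one_le₀
    linarith
  have h6 : (2 * Real.pi)⁻¹ * ∫ η in (-((k:ℝ) + 1) / δ)..(-((k:ℝ) + 1) / δ + 1 / δ), ‖DS a s η‖ ^ 2 ≤ B k :=
    (mul_le_of_le_one_left h0 h5).trans (hB k)
  calc _ ≤ B k * (20 * δ ^ 2 / (1 + (k:ℝ) ^ 2)) := mul_le_mul_of_nonneg_right h6 (by positivity)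
    _ = _ := by ring

end Pool.Agent.L7h8.MW
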