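import Pool.Agent.L7h8.MW.PN2d

/-! # Project MW, part PN2 -/

set_option autoImplicit false

namespace Pool.Agent.L7h8.MW

open Finset
open Pool.Agent.L7h88.MW

theorem s_PN2 : S_PN1 → S_PN2 := by
  intro h A
  obtain ⟨M0, hM0⟩ := block h A
  obtain ⟨X0, hX0⟩ := cover (Bad A) A M0 hM0
  refine ⟨X0, fun X hX => le_trans (le_of_eq ?_) (hX0 X hX)⟩
  congr 2
  ext N
  simp only [Finset.mem_filter, Bad]

end Pool.Agent.L7h8.MW
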