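import Pool.Agent.L7h8.MW.PN1

/-! # Project MW, part PN2: averages over windows on the logarithmic scale -/

set_option autoImplicit false

namespace Pool.Agent.L7h8.MW

open Finset MeasureTheory Filter
open scoped ENNReal
open Pool.Agent.Y957.VK (lamw)
open Pool.Agent.L7h88.MW

/-- the sum over the window `(y, y + δ]` on the logarithmic scale -/
noncomputable def Gk (K : ℕ) (δ y : ℝ) : ℂ := ∑ n ∈ Icc 1 K, lamw n * bx δ (Real.log n - y)

lemma Gk_eq (K : ℕ) (δ y : ℝ) (hK : Real.exp (y + δ) ≤ K) :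
    ∑ n ∈ (Icc 1 ⌊Real.exp (y + δ)⌋₊).filter (fun n : ℕ => y < Real.log n), lamw n = Gk K δ y := by
  unfold Gk
  have hys : (Icc 1 ⌊Real.exp (y + δ)⌋₊).filter (fun n : ℕ => y < Real.log n) =
      (Icc 1 K).filter (fun n : ℕ => Real.log n - y ∈ Set.Ioc 0 δ) := by
    ext n
    rw [Finset.mem_filter, Finset.mem_filter, Finset.mem_Icc, Finset.mem_Icc, Set.mem_Ioc,
      Nat.le_floor_iff (Real.exp_pos _).le]
    constructor
    · rintro ⟨⟨h1, h2⟩, h3⟩
      have hnp : (0:ℝ) < n := by exact_mod_cast (by omega : 0 < n)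
      have h4 : Real.log n ≤ y + δ := by
        rw [Real.log_le_iff_le_exp hnp]
        exact h2
      exact ⟨⟨h1, by exact_mod_cast h2.trans hK⟩, by linarith, by linarith⟩
    · rintro ⟨⟨h1, h2⟩, h3, h4⟩
      have hnp : (0:ℝ) < n := by exact_mod_cast (by omega : 0 < n)
      refine ⟨⟨by omega, ?_⟩, by linarith⟩
      rw [← Real.log_le_iff_le_exp hnp]
      linarith
  rw [hys, Finset.sum_filter]
  refine Finset.sum_congr rfl fun n _ => ?_
  unfold bx
  by_cases h : Real.log n - y ∈ Set.Ioc 0 δ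
  · rw [if_pos h, Set.indicator_of_mem h, mul_one]
  · rw [if_neg h, Set.indicator_of_notMem h, mul_zero]

lemma Gk_meas (K : ℕ) (δ : ℝ) : Measurable (Gk K δ) := by
  unfold Gk
  refine Finset.measurable_fun_sum _ fun n _ => ?_
  exact ((bx_meas δ).comp (measurable_id.const_sub _)).const_mul _

lemma Gk_bdd (K : ℕ) (δ y : ℝ) : ‖Gk K δ y‖ ≤ ∑ n ∈ Icc 1 K, ‖lamw n‖ := by
  unfold Gk
  refine (norm_sum_le _ _).trans (Finset.sum_le_sum fun n _ => ?_)
  rw [norm_mul]
  exact mul_le_of_le_one_right (norm_nonneg _) (bx_le _ _)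

lemma ii_of_bdd {E : Type*} [NormedAddCommGroup E] {f : ℝ → E} (hf : AEStronglyMeasurable f volume) {C : ℝ}
    (hC : ∀ x, ‖f x‖ ≤ C) (a b : ℝ) : IntervalIntegrable f volume a b := by
  rw [intervalIntegrable_iff]
  refine Measure.integrableOn_of_bounded (M := C) ?_ hf ?_
  · rw [Set.uIoc]
    simp
  · exact Eventually.of_forall hC

lemma Gk_norm_ii (K : ℕ) (δ a b : ℝ) : IntervalIntegrable (fun y => ‖Gk K δ y‖) volume a b :=
  ii_of_bdd (Gk_meas K δ).norm.aestronglyMeasurable (C := ∑ n ∈ Icc 1 K, ‖lamw n‖) (fun y => by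
    rw [norm_norm]
    exact Gk_bdd K δ y) a b

lemma Gk_norm_sq_ii (K : ℕ) (δ a b : ℝ) : IntervalIntegrable (fun y => ‖Gk K δ y‖ ^ 2) volume a b :=
  ii_of_bdd ((Gk_meas K δ).norm.pow_const 2).aestronglyMeasurable (C := (∑ n ∈ Icc 1 K, ‖lamw n‖) ^ 2) (fun y => by
    rw [norm_pow, norm_norm]
    exact pow_le_pow_left₀ (norm_nonneg _) (Gk_bdd K δ y) 2) a b

lemma cs (K : ℕ) (δ a : ℝ) : (∫ y in a..(a + 1), ‖Gk K δ y‖) ^ 2 ≤ ∫ y in a..(a + 1), ‖Gk K δ y‖ ^ 2 := by
  obtain ⟨c, hc⟩ : ∃ c : ℝ, c = ∫ y in a..(a + 1), ‖Gk K δ y‖ := ⟨_, rfl⟩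
  have h0 : 0 ≤ ∫ y in a..(a + 1), (‖Gk K δ y‖ - c) ^ 2 := by
    apply intervalIntegral.integral_nonneg (by linarith)
    intro u _
    positivity
  have h1 : ∫ y in a..(a + 1), (‖Gk K δ y‖ - c) ^ 2 = (∫ y in a..(a + 1), ‖Gk K δ y‖ ^ 2) - 2 * c * c + c ^ 2 := by
    have e : (fun y => (‖Gk K δ y‖ - c) ^ 2) = fun y => (‖Gk K δ y‖ ^ 2 - (2 * c) * ‖Gk K δ y‖) + c ^ 2 := by
      funext y
      ring
    rw [e, intervalIntegral.integral_add ((Gk_norm_sq_ii K δ _ _).sub ((Gk_norm_ii K δ _ _).const_mul _))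
      intervalIntegrable_const, intervalIntegral.integral_sub (Gk_norm_sq_ii K δ _ _) ((Gk_norm_ii K δ _ _).const_mul _),
      intervalIntegral.integral_const_mul, ← hc, intervalIntegral.integral_const]
    simp
  rw [← hc]
  nlinarith

lemma bxint {δ p q : ℝ} (hpq : p ≤ q) : ∫ t in p..q, bx δ t = ((max (min q δ - max p 0) 0 : ℝ) : ℂ) := by
  rw [intervalIntegral.integral_of_le hpq]
  unfold bx
  rw [setIntegral_indicator measurableSet_Ioc, Set.Ioc_inter_Ioc, setIntegral_const]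
  rw [Measure.real, Real.volume_Ioc, ENNReal.toReal_ofReal']
  simp

/-- the number of integers in a short interval -/
lemma cnt_le (K : ℕ) {a δ : ℝ} (ha : 1 ≤ a) (hδ : 0 < δ) (hδ1 : δ ≤ 1) :
    (((Icc 1 K).filter (fun n : ℕ => a < n ∧ (n:ℝ) ≤ a * Real.exp δ)).card : ℝ) ≤ 2 * δ * a + 1 := by
  have h1 : (Icc 1 K).filter (fun n : ℕ => a < n ∧ (n:ℝ) ≤ a * Real.exp δ) ⊆ Ioc ⌊a⌋₊ ⌊a * Real.exp δ⌋₊ := by
    intro n hn
    rw [Finset.mem_filter] at hn
    rw [Finset.mem_Ioc, Nat.floor_lt (by linarith), Nat.le_floor_iff (by positivity)]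
    exact hn.2
  have h2 := Finset.card_le_card h1
  rw [Nat.card_Ioc] at h2
  have h3 : ⌊a⌋₊ ≤ ⌊a * Real.exp δ⌋₊ := Nat.floor_le_floor (by
    have := Real.add_one_le_exp δ
    nlinarith)
  have h4 : ((⌊a * Real.exp δ⌋₊ - ⌊a⌋₊ : ℕ) : ℝ) ≤ 2 * δ * a + 1 := by
    rw [Nat.cast_sub h3]
    have h5 := Nat.floor_le (show 0 ≤ a * Real.exp δ by positivity)
    have h6 := Nat.lt_floor_add_one a
    have h7 := Real.abs_exp_sub_one_le (x := δ) (by rw [abs_of_pos hδ]; exact hδ1)
    rw [abs_of_pos hδ] at h7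
    have h8 := (abs_le.1 h7).2
    nlinarith
  have h9 : (((Icc 1 K).filter (fun n : ℕ => a < n ∧ (n:ℝ) ≤ a * Real.exp δ)).card : ℝ) ≤
      ((⌊a * Real.exp δ⌋₊ - ⌊a⌋₊ : ℕ) : ℝ) := by exact_mod_cast h2
  linarith

/-- the average over the windows is close to the sum over the interval -/
lemma avg (K : ℕ) {a b δ : ℝ} (ha : 1 ≤ a) (hab : a ≤ b) (hb : ⌊b⌋₊ ≤ K) (hδ : 0 < δ) (hδ1 : δ ≤ 1) :
    ‖(δ : ℂ) * ∑ n ∈ Ioc ⌊a⌋₊ ⌊b⌋₊, lamw n - ∫ y in (Real.log a)..(Real.log b), Gk K δ y‖ ≤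
      δ * (2 * (2 * δ * b + 1) * (1 + Real.log K)) := by
  have ha0 : 0 < a := by linarith
  have hb0 : 0 < b := by linarith
  have hKl : 0 ≤ Real.log K := Real.log_natCast_nonneg K
  have hint : ∫ y in (Real.log a)..(Real.log b), Gk K δ y =
      ∑ n ∈ Icc 1 K, lamw n * ((max (min (Real.log n - Real.log a) δ - max (Real.log n - Real.log b) 0) 0 : ℝ) : ℂ) := by
    unfold Gk
    rw [intervalIntegral.integral_finsetSum]
    · refine Finset.sum_congr rfl fun n _ => ?_
      rw [intervalIntegral.integral_const_mul, intervalIntegral.integral_comp_sub_left (bx δ), bxint]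
      have := Real.log_le_log ha0 hab
      linarith
    · intro n _
      refine IntervalIntegrable.const_mul ?_ _
      exact ii_of_bdd ((bx_meas δ).comp (measurable_id.const_sub _)).aestronglyMeasurable (C := 1) (fun y => bx_le _ _) _ _
  have hsum : (δ : ℂ) * ∑ n ∈ Ioc ⌊a⌋₊ ⌊b⌋₊, lamw n =
      ∑ n ∈ Icc 1 K, lamw n * (((if a < n ∧ (n:ℝ) ≤ b then δ else 0 : ℝ)) : ℂ) := by
    have hs : Ioc ⌊a⌋₊ ⌊b⌋₊ = (Icc 1 K).filter (fun n : ℕ => a < n ∧ (n:ℝ) ≤ b) := by
      ext n
      rw [Finset.mem_Ioc, Finset.mem_filter, Finset.mem_Icc, Nat.floor_lt ha0.le, Nat.le_floor_iff hb0.le]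
      constructor
      · rintro ⟨h1, h2⟩
        refine ⟨⟨?_, ?_⟩, h1, h2⟩
        · have : (1:ℝ) < n := by linarith
          have : 1 < n := by exact_mod_cast this
          omega
        · exact (Nat.le_floor h2).trans hb
      · rintro ⟨_, h1, h2⟩
        exact ⟨h1, h2⟩
    rw [hs, Finset.sum_filter, Finset.mul_sum]
    refine Finset.sum_congr rfl fun n _ => ?_
    by_cases h : a < n ∧ (n:ℝ) ≤ b
    · rw [if_pos h, if_pos h, mul_comm]
    · rw [if_neg h, if_neg h]
      simp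
  rw [hint, hsum, ← Finset.sum_sub_distrib]
  refine (norm_sum_le _ _).trans ?_
  have hterm : ∀ n ∈ Icc 1 K, ‖lamw n * (((if a < n ∧ (n:ℝ) ≤ b then δ else 0 : ℝ)) : ℂ) -
      lamw n * ((max (min (Real.log n - Real.log a) δ - max (Real.log n - Real.log b) 0) 0 : ℝ) : ℂ)‖ ≤
      (1 + Real.log K) * ((if a < n ∧ (n:ℝ) ≤ a * Real.exp δ then δ else 0) + (if b < n ∧ (n:ℝ) ≤ b * Real.exp δ then δ else 0)) := by
    intro n hn
    rw [Finset.mem_Icc] at hn
    have hnp : (0:ℝ) < n := by exact_mod_cast (by omega : 0 < n)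
    rw [← mul_sub, norm_mul, ← Complex.ofReal_sub, Complex.norm_real, Real.norm_eq_abs]
    have hlk : Real.log n ≤ Real.log K := Real.log_le_log hnp (by exact_mod_cast hn.2)
    apply mul_le_mul ((lamw_le n).trans (by linarith)) _ (abs_nonneg _) (by linarith)
    have hA : Real.log (a * Real.exp δ) = Real.log a + δ := by
      rw [Real.log_mul ha0.ne' (Real.exp_pos _).ne', Real.log_exp]
    have hB : Real.log (b * Real.exp δ) = Real.log b + δ := by
      rw [Real.log_mul hb0.ne' (Real.exp_pos _).ne', Real.log_exp]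
    have hlab := Real.log_le_log ha0 hab
    rcases le_or_gt (n:ℝ) a with h1 | h1
    · have hl := Real.log_le_log hnp h1
      rw [if_neg (by intro h; linarith [h.1]), if_neg (by intro h; linarith [h.1]), if_neg (by intro h; linarith [h.1])]
      have : max (min (Real.log n - Real.log a) δ - max (Real.log n - Real.log b) 0) 0 = 0 := by
        apply max_eq_right
        have h2 := min_le_left (Real.log n - Real.log a) δ
        have h3 := le_max_right (Real.log n - Real.log b) 0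
        linarith
      rw [this]
      simp
    · have hla := Real.log_lt_log ha0 h1
      rcases le_or_gt (n:ℝ) b with h2 | h2
      · have hlb := Real.log_le_log hnp h2
        rw [if_pos ⟨h1, h2⟩, if_neg (show ¬ (b < n ∧ (n:ℝ) ≤ b * Real.exp δ) by intro h; linarith [h.1])]
        have h3 : max (Real.log n - Real.log b) 0 = 0 := max_eq_right (by linarith)
        rw [h3, sub_zero]
        have h4 : 0 ≤ min (Real.log n - Real.log a) δ := le_min (by linarith) hδ.le
        rw [max_eq_left h4, add_zero]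
        have h5 := min_le_right (Real.log n - Real.log a) δ
        by_cases h6 : (n:ℝ) ≤ a * Real.exp δ
        · rw [if_pos ⟨h1, h6⟩, abs_of_nonneg (by linarith)]
          linarith
        · rw [if_neg (by intro h; exact h6 h.2)]
          push Not at h6
          have h7 := Real.log_lt_log (by positivity) h6
          rw [hA] at h7
          rw [min_eq_right (by linarith), sub_self, abs_zero]
      · have hlb := Real.log_lt_log hb0 h2
        rw [if_neg (show ¬ (a < n ∧ (n:ℝ) ≤ b) by intro h; linarith [h.2])]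
        have h3 : max (Real.log n - Real.log b) 0 = Real.log n - Real.log b := max_eq_left (by linarith)
        rw [h3, zero_sub, abs_neg, abs_of_nonneg (le_max_right _ _)]
        have h5 := min_le_right (Real.log n - Real.log a) δ
        have h9 : 0 ≤ (if a < n ∧ (n:ℝ) ≤ a * Real.exp δ then δ else 0) := by
          split_ifs
          · exact hδ.le
          · exact le_rfl
        by_cases h6 : (n:ℝ) ≤ b * Real.exp δ
        · rw [if_pos (show b < n ∧ (n:ℝ) ≤ b * Real.exp δ from ⟨h2, h6⟩)]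
          have : max (min (Real.log n - Real.log a) δ - (Real.log n - Real.log b)) 0 ≤ δ :=
            max_le (by linarith) hδ.le
          linarith
        · rw [if_neg (show ¬ (b < n ∧ (n:ℝ) ≤ b * Real.exp δ) by intro h; exact h6 h.2)]
          push Not at h6
          have h7 := Real.log_lt_log (by positivity) h6
          rw [hB] at h7
          rw [max_eq_right (by linarith)]
          linarith
  refine (Finset.sum_le_sum hterm).trans ?_
  rw [← Finset.mul_sum, Finset.sum_add_distrib, ← Finset.sum_filter, ← Finset.sum_filter, Finset.sum_const, Finset.sum_const,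
    nsmul_eq_mul, nsmul_eq_mul]
  have c1 := cnt_le K ha hδ hδ1
  have c2 := cnt_le K (ha.trans hab) hδ hδ1
  have c3 : 2 * δ * a + 1 ≤ 2 * δ * b + 1 := by nlinarith
  calc (1 + Real.log K) * (((((Icc 1 K).filter (fun n : ℕ => a < n ∧ (n:ℝ) ≤ a * Real.exp δ)).card : ℝ)) * δ +
        ((((Icc 1 K).filter (fun n : ℕ => b < n ∧ (n:ℝ) ≤ b * Real.exp δ)).card : ℝ)) * δ)
      ≤ (1 + Real.log K) * ((2 * δ * b + 1) * δ + (2 * δ * b + 1) * δ) := by
        apply mul_le_mul_of_nonneg_left _ (by linarith)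
        apply add_le_add
        · exact mul_le_mul_of_nonneg_right (c1.trans c3) hδ.le
        · exact mul_le_mul_of_nonneg_right c2 hδ.le
    _ = _ := by ring

end Pool.Agent.L7h8.MW
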