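import Pool.Agent.L7h8.MW.PN2a

/-! # Project MW, part PN2: from the weighted sums to the number of primes between squares -/

set_option autoImplicit false

namespace Pool.Agent.L7h8.MW

open Finset
open Pool.Agent.Y957.VK (lamw)
open Pool.Agent.L7h88.MW

/-- the weighted sum over a part of the interval between two squares -/
noncomputable def SN (N : ℕ) (u : ℝ) : ℂ := ∑ n ∈ Ioc (N ^ 2) ⌊(N:ℝ) ^ 2 + 2 * u * N⌋₊, lamw n

/-- the number of primes in a part of the interval between two squares -/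
noncomputable def Pi (N : ℕ) (u : ℝ) : ℕ := ((Ioc (N ^ 2) ⌊(N:ℝ) ^ 2 + 2 * u * N⌋₊).filter Nat.Prime).card

lemma pow_gap {N p q k : ℕ} (hk : 2 ≤ k) (hp : N ^ 2 < p ^ k) (hq : q ^ k ≤ N ^ 2 + 2 * N) : q ≤ p := by
  by_contra hcon
  push Not at hcon
  obtain ⟨j, rfl⟩ : ∃ j, k = j + 2 := ⟨k - 2, by omega⟩
  have hp1 : 1 ≤ p := by
    rcases Nat.eq_zero_or_pos p with h | h
    · rw [h, zero_pow (by omega)] at hp
      omega
    · exact h
  have h1 : (p + 1) ^ (j + 2) ≤ q ^ (j + 2) := Nat.pow_le_pow_left hcon _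
  have h2 : p ^ (j + 2) + 2 * p ^ (j + 1) ≤ (p + 1) ^ (j + 2) := by
    have h3 : p ^ j ≤ (p + 1) ^ j := Nat.pow_le_pow_left (Nat.le_succ p) _
    calc p ^ (j + 2) + 2 * p ^ (j + 1) ≤ p ^ j * (p + 1) ^ 2 := by
          have : p ^ j * (p + 1) ^ 2 = p ^ (j + 2) + 2 * p ^ (j + 1) + p ^ j := by ring
          omega
      _ ≤ (p + 1) ^ j * (p + 1) ^ 2 := Nat.mul_le_mul_right _ h3
      _ = (p + 1) ^ (j + 2) := by ring
  have h4 : N < p ^ (j + 1) := by
    by_contra h5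
    push Not at h5
    have h6 : (p ^ (j + 1)) ^ 2 ≤ N ^ 2 := Nat.pow_le_pow_left h5 2
    have h7 : p ^ (j + 2) ≤ (p ^ (j + 1)) ^ 2 := by
      rw [← pow_mul]
      exact Nat.pow_le_pow_right hp1 (by omega)
    omega
  omega

lemma card_pp {N m : ℕ} (hm : m ≤ N ^ 2 + 2 * N) :
    ((Ioc (N ^ 2) m).filter (fun n => IsPrimePow n ∧ ¬ n.Prime)).card ≤ Nat.log 2 (N ^ 2 + 2 * N) := by
  have hrep : ∀ n ∈ (Ioc (N ^ 2) m).filter (fun n => IsPrimePow n ∧ ¬ n.Prime), ∃ p k : ℕ, p.Prime ∧ 2 ≤ k ∧ n = p ^ k ∧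
      n.factorization n.minFac = k := by
    intro n hn
    rw [Finset.mem_filter] at hn
    obtain ⟨_, h1, h2⟩ := hn
    rw [isPrimePow_nat_iff] at h1
    obtain ⟨p, k, hp, hk, rfl⟩ := h1
    refine ⟨p, k, hp, ?_, rfl, ?_⟩
    · by_contra h
      have : k = 1 := by omega
      rw [this, pow_one] at h2
      exact h2 hp
    · rw [hp.pow_minFac (by omega), hp.factorization_pow]
      simp
  have h1 : ((Ioc (N ^ 2) m).filter (fun n => IsPrimePow n ∧ ¬ n.Prime)).card ≤ (Icc 1 (Nat.log 2 (N ^ 2 + 2 * N))).card := by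
    refine Finset.card_le_card_of_injOn (fun n => n.factorization n.minFac) ?_ ?_
    · intro n hn
      obtain ⟨p, k, hp, hk, hn1, hn2⟩ := hrep n hn
      have hn' := (Finset.mem_Ioc.1 (Finset.mem_filter.1 hn).1)
      simp only [Finset.coe_Icc, Set.mem_Icc]
      rw [hn2]
      refine ⟨by omega, Nat.le_log_of_pow_le (by norm_num) ?_⟩
      calc 2 ^ k ≤ p ^ k := Nat.pow_le_pow_left hp.two_le _
        _ = n := hn1.symm
        _ ≤ _ := by omega
    · intro n hn n' hn' heq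
      obtain ⟨p, k, hp, hk, hn1, hn2⟩ := hrep n hn
      obtain ⟨p', k', hp', hk', hn1', hn2'⟩ := hrep n' hn'
      have a1 := (Finset.mem_Ioc.1 (Finset.mem_filter.1 hn).1)
      have a2 := (Finset.mem_Ioc.1 (Finset.mem_filter.1 hn').1)
      simp only at heq
      rw [hn2, hn2'] at heq
      subst heq
      have e1 : p' ≤ p := pow_gap hk (by rw [← hn1]; exact a1.1) (by rw [← hn1']; omega)
      have e2 : p ≤ p' := pow_gap hk (by rw [← hn1']; exact a2.1) (by rw [← hn1]; omega)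
      rw [hn1, hn1', le_antisymm e2 e1]
  rwa [Nat.card_Icc, Nat.add_sub_cancel] at h1

lemma log_nat_le {x : ℕ} (hx : 1 ≤ x) : (Nat.log 2 x : ℝ) ≤ 2 * Real.log x := by
  have h1 : 2 ^ Nat.log 2 x ≤ x := Nat.pow_log_le_self 2 (by omega)
  have h2 : ((2:ℝ) ^ Nat.log 2 x) ≤ x := by exact_mod_cast h1
  have h3 := Real.log_le_log (by positivity) h2
  rw [Real.log_pow] at h3
  have h4 := Real.log_two_gt_d9
  have h5 : (0:ℝ) ≤ Nat.log 2 x := Nat.cast_nonneg _
  nlinarith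

lemma point {N : ℕ} (hN : 2 ≤ N) {u : ℝ} (hu : 0 ≤ u) (hu1 : u ≤ 1) :
    |2 * Real.log N * Pi N u - 2 * u * N| ≤ ‖SN N u‖ + 8 * Real.log (N + 1) ^ 2 + 5 := by
  have hNr : (2:ℝ) ≤ N := by exact_mod_cast hN
  obtain ⟨m, hm⟩ : ∃ m : ℕ, m = ⌊(N:ℝ) ^ 2 + 2 * u * N⌋₊ := ⟨_, rfl⟩
  have hm1 : N ^ 2 ≤ m := by
    rw [hm]
    apply Nat.le_floor
    push_cast
    have : 0 ≤ 2 * u * N := by positivity
    linarith
  have hm2 : m ≤ N ^ 2 + 2 * N := by
    rw [hm]
    apply Nat.floor_le_of_le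
    push_cast
    nlinarith
  have hm3 : (m:ℝ) ≤ (N:ℝ) ^ 2 + 2 * u * N := by
    rw [hm]
    exact Nat.floor_le (by positivity)
  have hm4 : (N:ℝ) ^ 2 + 2 * u * N < m + 1 := by
    rw [hm]
    exact Nat.lt_floor_add_one _
  have hlog1 : 0 < Real.log N := Real.log_pos (by linarith)
  have hlog2 : 0 ≤ Real.log (N + 1) := Real.log_nonneg (by linarith)
  obtain ⟨P, hP⟩ : ∃ P : Finset ℕ, P = (Ioc (N ^ 2) m).filter Nat.Prime := ⟨_, rfl⟩
  obtain ⟨R, hR⟩ : ∃ R : Finset ℕ, R = (Ioc (N ^ 2) m).filter (fun n => ¬ n.Prime) := ⟨_, rfl⟩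
  have hPi : Pi N u = P.card := by rw [hP, hm]; rfl
  -- the sum of the values of the von Mangoldt function
  have hS : SN N u = ((∑ n ∈ Ioc (N ^ 2) m, ArithmeticFunction.vonMangoldt n - ((m:ℝ) - (N:ℝ) ^ 2) : ℝ) : ℂ) := by
    unfold SN lamw
    rw [← hm, Finset.sum_sub_distrib, Finset.sum_const, Nat.card_Ioc, nsmul_eq_mul, mul_one, Nat.cast_sub hm1]
    push_cast
    rfl
  have hsplit : ∑ n ∈ Ioc (N ^ 2) m, ArithmeticFunction.vonMangoldt n =
      ∑ n ∈ P, ArithmeticFunction.vonMangoldt n + ∑ n ∈ R, ArithmeticFunction.vonMangoldt n := by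
    rw [hP, hR]
    exact (Finset.sum_filter_add_sum_filter_not _ _ _).symm
  have hPsum : ∑ n ∈ P, ArithmeticFunction.vonMangoldt n = ∑ n ∈ P, Real.log n := by
    refine Finset.sum_congr rfl fun n hn => ?_
    rw [hP, Finset.mem_filter] at hn
    exact ArithmeticFunction.vonMangoldt_apply_prime hn.2
  have hlogb : ∀ n ∈ Ioc (N ^ 2) m, 2 * Real.log N ≤ Real.log n ∧ Real.log n ≤ 2 * Real.log (N + 1) := by
    intro n hn
    rw [Finset.mem_Ioc] at hn
    have h1 : ((N ^ 2 : ℕ) : ℝ) ≤ n := by exact_mod_cast hn.1.le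
    have h2 : (n:ℝ) ≤ (((N + 1) ^ 2 : ℕ) : ℝ) := by
      have : n ≤ (N + 1) ^ 2 := by nlinarith [hn.2, hm2]
      exact_mod_cast this
    push_cast at h1 h2
    have h3 : (0:ℝ) < (N:ℝ) ^ 2 := by positivity
    constructor
    · have := Real.log_le_log h3 h1
      rwa [Real.log_pow, Nat.cast_ofNat] at this
    · have := Real.log_le_log (lt_of_lt_of_le h3 h1) h2
      rwa [Real.log_pow, Nat.cast_ofNat] at this
  have hPcard : (P.card : ℝ) ≤ 2 * N := by
    have h1 : P.card ≤ (Ioc (N ^ 2) m).card := by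
      rw [hP]
      exact Finset.card_filter_le _ _
    rw [Nat.card_Ioc] at h1
    have : P.card ≤ 2 * N := by omega
    exact_mod_cast this
  have hPlow : 2 * Real.log N * P.card ≤ ∑ n ∈ P, Real.log n := by
    have : ∑ n ∈ P, 2 * Real.log N ≤ ∑ n ∈ P, Real.log n := Finset.sum_le_sum fun n hn => by
      rw [hP, Finset.mem_filter] at hn
      exact (hlogb n hn.1).1
    rw [Finset.sum_const, nsmul_eq_mul] at this
    linarith
  have hPhigh : ∑ n ∈ P, Real.log n ≤ 2 * Real.log (N + 1) * P.card := by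
    have : ∑ n ∈ P, Real.log n ≤ ∑ n ∈ P, 2 * Real.log (N + 1) := Finset.sum_le_sum fun n hn => by
      rw [hP, Finset.mem_filter] at hn
      exact (hlogb n hn.1).2
    rw [Finset.sum_const, nsmul_eq_mul] at this
    linarith
  have hdl : Real.log (N + 1) - Real.log N ≤ 1 / N := by
    rw [← Real.log_div (by linarith) (by linarith)]
    have := Real.log_le_sub_one_of_pos (show (0:ℝ) < ((N:ℝ) + 1) / N by positivity)
    refine this.trans (le_of_eq ?_)
    field_simp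
    ring
  have hPdiff : 2 * Real.log (N + 1) * P.card - 2 * Real.log N * P.card ≤ 4 := by
    have h0 : (0:ℝ) ≤ P.card := Nat.cast_nonneg _
    calc 2 * Real.log (N + 1) * P.card - 2 * Real.log N * P.card = 2 * (Real.log (N + 1) - Real.log N) * P.card := by ring
      _ ≤ 2 * (1 / N) * (2 * N) := by
          apply mul_le_mul _ hPcard h0 (by positivity)
          linarith
      _ = 4 := by field_simp; norm_num
  have hR0 : 0 ≤ ∑ n ∈ R, ArithmeticFunction.vonMangoldt n :=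
    Finset.sum_nonneg fun n _ => ArithmeticFunction.vonMangoldt_nonneg
  have hR1 : ∑ n ∈ R, ArithmeticFunction.vonMangoldt n ≤ 8 * Real.log (N + 1) ^ 2 := by
    have h1 : ∑ n ∈ R, ArithmeticFunction.vonMangoldt n =
        ∑ n ∈ (Ioc (N ^ 2) m).filter (fun n => IsPrimePow n ∧ ¬ n.Prime), ArithmeticFunction.vonMangoldt n := by
      symm
      apply Finset.sum_subset
      · rw [hR]
        intro n hn
        rw [Finset.mem_filter] at hn ⊢
        exact ⟨hn.1, hn.2.2⟩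
      · intro n hn hn2
        rw [hR, Finset.mem_filter] at hn
        rw [Finset.mem_filter] at hn2
        rw [ArithmeticFunction.vonMangoldt_apply, if_neg]
        intro h
        exact hn2 ⟨hn.1, h, hn.2⟩
    rw [h1]
    have h2 : ∀ n ∈ (Ioc (N ^ 2) m).filter (fun n => IsPrimePow n ∧ ¬ n.Prime),
        ArithmeticFunction.vonMangoldt n ≤ 2 * Real.log (N + 1) := by
      intro n hn
      rw [Finset.mem_filter] at hn
      exact ArithmeticFunction.vonMangoldt_le_log.trans (hlogb n hn.1).2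
    refine (Finset.sum_le_sum h2).trans ?_
    rw [Finset.sum_const, nsmul_eq_mul]
    have h3 : (((Ioc (N ^ 2) m).filter (fun n => IsPrimePow n ∧ ¬ n.Prime)).card : ℝ) ≤ 4 * Real.log (N + 1) := by
      have h4 := card_pp hm2
      have h5 : (((Ioc (N ^ 2) m).filter (fun n => IsPrimePow n ∧ ¬ n.Prime)).card : ℝ) ≤ (Nat.log 2 (N ^ 2 + 2 * N) : ℝ) := by
        exact_mod_cast h4
      have h6 := log_nat_le (x := N ^ 2 + 2 * N) (by nlinarith)
      have h7 : Real.log ((N ^ 2 + 2 * N : ℕ) : ℝ) ≤ 2 * Real.log (N + 1) := by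
        have : Real.log ((N ^ 2 + 2 * N : ℕ) : ℝ) ≤ Real.log (((N:ℝ) + 1) ^ 2) := by
          apply Real.log_le_log
          · push_cast
            positivity
          · push_cast
            nlinarith
        rwa [Real.log_pow, Nat.cast_ofNat] at this
      linarith
    calc _ ≤ 4 * Real.log (N + 1) * (2 * Real.log (N + 1)) := mul_le_mul_of_nonneg_right h3 (by linarith)
      _ = _ := by ring
  rw [hPi, hS, Complex.norm_real, Real.norm_eq_abs, hsplit, hPsum]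
  have hab := abs_le.1 (le_refl |∑ n ∈ P, Real.log n + ∑ n ∈ R, ArithmeticFunction.vonMangoldt n - ((m:ℝ) - (N:ℝ) ^ 2)|)
  rw [abs_le]
  constructor
  · linarith [hab.1]
  · linarith [hab.2]

lemma pc_eq {N : ℕ} {u v : ℝ} (hu : 0 ≤ u) (huv : u ≤ v) :
    (pc ((N:ℝ) ^ 2 + 2 * u * N) ((N:ℝ) ^ 2 + 2 * v * N) : ℝ) = Pi N v - Pi N u := by
  have h1 : ((N ^ 2 : ℕ) : ℝ) ≤ (N:ℝ) ^ 2 + 2 * u * N := by
    push_cast
    have : 0 ≤ 2 * u * N := by positivity
    linarith
  have h2 : (N:ℝ) ^ 2 + 2 * u * N ≤ (N:ℝ) ^ 2 + 2 * v * N := by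
    have : 0 ≤ (v - u) * N := mul_nonneg (by linarith) (Nat.cast_nonneg _)
    nlinarith
  have f1 : N ^ 2 ≤ ⌊(N:ℝ) ^ 2 + 2 * u * N⌋₊ := Nat.le_floor h1
  have f2 : ⌊(N:ℝ) ^ 2 + 2 * u * N⌋₊ ≤ ⌊(N:ℝ) ^ 2 + 2 * v * N⌋₊ := Nat.floor_le_floor h2
  have h3 : Pi N v = Pi N u + pc ((N:ℝ) ^ 2 + 2 * u * N) ((N:ℝ) ^ 2 + 2 * v * N) := by
    unfold Pi pc
    rw [← Finset.card_union_of_disjoint, ← Finset.filter_union, Finset.Ioc_union_Ioc_eq_Ioc f1 f2]
    apply Finset.disjoint_filter_filter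
    rw [Finset.disjoint_left]
    intro a ha hb
    rw [Finset.mem_Ioc] at ha hb
    omega
  rw [h3]
  push_cast
  ring

end Pool.Agent.L7h8.MW
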