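import Pool.Agent.L7h8.MW.PN2b

/-! # Project MW, part PN2: covering by short blocks -/

set_option autoImplicit false

namespace Pool.Agent.L7h8.MW

open Finset Filter

open Classical in
lemma blocks (Bad : ℕ → Prop) (A M0 : ℕ)
    (h : ∀ M : ℕ, M0 ≤ M → (((Ioc M (M + M / 5)).filter Bad).card : ℝ) ≤ M / Real.log M ^ (A + 1))
    (Z : ℕ) (hZ : 77 ≤ Z) (hZM : M0 ≤ Z) :
    ∀ Y : ℕ, (((Icc 2 Y).filter Bad).card : ℝ) ≤ 2 * Z + 7 * (Y / Real.log Z ^ (A + 1)) := by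
  intro Y
  have hZr : (77:ℝ) ≤ Z := by exact_mod_cast hZ
  have hlZ : 0 < Real.log Z := Real.log_pos (by linarith)
  induction Y using Nat.strong_induction_on with
  | _ Y ih =>
    rcases le_or_gt Y (2 * Z) with h1 | h1
    · have h2 : ((Icc 2 Y).filter Bad).card ≤ Y := by
        refine (Finset.card_filter_le _ _).trans ?_
        rw [Nat.card_Icc]
        omega
      have h3 : (((Icc 2 Y).filter Bad).card : ℝ) ≤ 2 * Z := by
        have : ((Icc 2 Y).filter Bad).card ≤ 2 * Z := h2.trans h1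
        exact_mod_cast this
      have h4 : 0 ≤ 7 * ((Y:ℝ) / Real.log Z ^ (A + 1)) := by positivity
      linarith
    · obtain ⟨M, hM⟩ : ∃ M : ℕ, M = 6 * Y / 7 := ⟨_, rfl⟩
      have hMY : M < Y := by omega
      have hMZ : Z ≤ M := by omega
      have hM7 : 7 * M ≤ 6 * Y := by omega
      have hM5 : Y ≤ M + M / 5 := by omega
      have h2 := ih M hMY
      have h3 := h M (hZM.trans hMZ)
      have hsub : (Icc 2 Y).filter Bad ⊆ (Icc 2 M).filter Bad ∪ (Ioc M (M + M / 5)).filter Bad := by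
        intro n hn
        rw [Finset.mem_filter, Finset.mem_Icc] at hn
        rw [Finset.mem_union, Finset.mem_filter, Finset.mem_filter, Finset.mem_Icc, Finset.mem_Ioc]
        by_cases h4 : n ≤ M
        · exact Or.inl ⟨⟨hn.1.1, h4⟩, hn.2⟩
        · exact Or.inr ⟨⟨by omega, by omega⟩, hn.2⟩
      have h5 : ((Icc 2 Y).filter Bad).card ≤ ((Icc 2 M).filter Bad).card + ((Ioc M (M + M / 5)).filter Bad).card :=
        (Finset.card_le_card hsub).trans (Finset.card_union_le _ _)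
      have h6 : (((Icc 2 Y).filter Bad).card : ℝ) ≤ ((Icc 2 M).filter Bad).card + ((Ioc M (M + M / 5)).filter Bad).card := by
        exact_mod_cast h5
      have h7 : (M:ℝ) / Real.log M ^ (A + 1) ≤ M / Real.log Z ^ (A + 1) := by
        have : Real.log Z ≤ Real.log M := Real.log_le_log (by linarith) (by exact_mod_cast hMZ)
        gcongr
      have h8 : (M:ℝ) / Real.log Z ^ (A + 1) ≤ 6 / 7 * (Y / Real.log Z ^ (A + 1)) := by
        have : (M:ℝ) ≤ 6 / 7 * Y := by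
          have : (7:ℝ) * M ≤ 6 * Y := by exact_mod_cast hM7
          linarith
        rw [← mul_div_assoc]
        gcongr
      have h9 : 0 ≤ (Y:ℝ) / Real.log Z ^ (A + 1) := by positivity
      linarith

open Classical in
lemma cover (Bad : ℕ → Prop) (A M0 : ℕ)
    (h : ∀ M : ℕ, M0 ≤ M → (((Ioc M (M + M / 5)).filter Bad).card : ℝ) ≤ M / Real.log M ^ (A + 1)) :
    ∃ X₀ : ℕ, ∀ X : ℕ, X₀ ≤ X → (((Icc 2 X).filter Bad).card : ℝ) ≤ X / Real.log X ^ A := by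
  have hev1 := log_pow_le (A + 1) (ε := 1 / 2) (by norm_num)
  have hev2 : ∀ᶠ X : ℕ in atTop, 14 * (4:ℝ) ^ (A + 1) ≤ Real.log X :=
    (Real.tendsto_log_atTop.comp tendsto_natCast_atTop_atTop).eventually_ge_atTop _
  have hev3 : ∀ᶠ X : ℕ in atTop, (M0 + 78) ^ 2 ≤ X := eventually_ge_atTop _
  obtain ⟨X0, hX0⟩ := eventually_atTop.1 ((hev1.and hev2).and hev3)
  refine ⟨X0, fun X hX => ?_⟩
  obtain ⟨⟨h1, h2⟩, h3⟩ := hX0 X hX
  have hsq : M0 + 78 ≤ Nat.sqrt X := by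
    rw [Nat.le_sqrt, ← pow_two]
    exact h3
  obtain ⟨Z, hZ⟩ : ∃ Z : ℕ, Z = Nat.sqrt X := ⟨_, rfl⟩
  rw [← hZ] at hsq
  have hb := blocks Bad A M0 h Z (by omega) (by omega) X
  have hZ1 : Z ^ 2 ≤ X := by rw [hZ]; exact Nat.sqrt_le' X
  have hZ2 : X < (Z + 1) ^ 2 := by rw [hZ]; exact Nat.lt_succ_sqrt' X
  have hXr : (1:ℝ) ≤ X := by
    have : 1 ≤ X := by nlinarith
    exact_mod_cast this
  have hZr : (78:ℝ) ≤ Z := by
    have : 78 ≤ Z := by omega
    exact_mod_cast this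
  have hXp : (0:ℝ) < X := by linarith
  obtain ⟨L, hL⟩ : ∃ L : ℝ, L = Real.log X := ⟨_, rfl⟩
  rw [← hL] at h1 h2 ⊢
  have hL14 : (14:ℝ) ≤ L := by
    refine le_trans ?_ h2
    have : (1:ℝ) ≤ 4 ^ (A + 1) := one_le_pow₀ (by norm_num)
    linarith
  have hLp : 0 < L := by linarith
  have hlZ : L / 4 ≤ Real.log Z := by
    have h4 : X ≤ Z ^ 4 := by
      have : (Z + 1) ^ 2 ≤ Z ^ 4 := by
        have : Z + 1 ≤ Z ^ 2 := by nlinarith
        calc (Z + 1) ^ 2 ≤ (Z ^ 2) ^ 2 := Nat.pow_le_pow_left this 2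
          _ = Z ^ 4 := by ring
      omega
    have h5 : Real.log X ≤ Real.log ((Z:ℝ) ^ 4) := Real.log_le_log hXp (by exact_mod_cast h4)
    rw [Real.log_pow, ← hL] at h5
    push_cast at h5
    linarith
  have hZs : (Z:ℝ) ≤ (X:ℝ) ^ (1 / 2 : ℝ) := by
    rw [← Real.sqrt_eq_rpow]
    apply Real.le_sqrt_of_sq_le
    exact_mod_cast hZ1
  have hXs : (X:ℝ) ^ (1 / 2 : ℝ) * (X:ℝ) ^ (1 / 2 : ℝ) = X := by
    rw [← Real.rpow_add hXp]
    norm_num
  have hs0 : 0 < (X:ℝ) ^ (1 / 2 : ℝ) := by positivity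
  -- first term
  have t1 : 2 * (Z:ℝ) ≤ 1 / 2 * (X / L ^ A) := by
    have h6 : 4 * L ^ A ≤ L ^ (A + 1) := by
      rw [pow_succ, mul_comm]
      exact mul_le_mul_of_nonneg_left (by linarith) (by positivity)
    have h7 : 4 * L ^ A ≤ (X:ℝ) ^ (1 / 2 : ℝ) := h6.trans h1
    have h8 : 4 * (Z:ℝ) * L ^ A ≤ X := by
      calc 4 * (Z:ℝ) * L ^ A = Z * (4 * L ^ A) := by ring
        _ ≤ (X:ℝ) ^ (1 / 2 : ℝ) * (X:ℝ) ^ (1 / 2 : ℝ) := mul_le_mul hZs h7 (by positivity) hs0.le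
        _ = X := hXs
    have h9 : 4 * (Z:ℝ) ≤ X / L ^ A := by
      rw [le_div_iff₀ (by positivity)]
      exact h8
    linarith
  have t2 : 7 * ((X:ℝ) / Real.log Z ^ (A + 1)) ≤ 1 / 2 * (X / L ^ A) := by
    have h6 : (L / 4) ^ (A + 1) ≤ Real.log Z ^ (A + 1) := pow_le_pow_left₀ (by positivity) hlZ _
    have h7 : (X:ℝ) / Real.log Z ^ (A + 1) ≤ X / (L / 4) ^ (A + 1) := by
      gcongr
    have h8 : (X:ℝ) / (L / 4) ^ (A + 1) = 4 ^ (A + 1) / L * (X / L ^ A) := by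
      rw [div_pow, pow_succ L]
      field_simp
    have h9 : 7 * (4 ^ (A + 1) / L) ≤ 1 / 2 := by
      rw [← mul_div_assoc, div_le_div_iff₀ hLp (by norm_num)]
      linarith
    have h10 : 0 ≤ (X:ℝ) / L ^ A := by positivity
    calc 7 * ((X:ℝ) / Real.log Z ^ (A + 1)) ≤ 7 * (4 ^ (A + 1) / L * (X / L ^ A)) := by rw [← h8]; linarith
      _ = 7 * (4 ^ (A + 1) / L) * (X / L ^ A) := by ring
      _ ≤ _ := mul_le_mul_of_nonneg_right h9 h10
  linarith

end Pool.Agent.L7h8.MW
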