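import Pool.Agent.L7h8.MW.PN2c

/-! # Project MW, part PN2 -/

set_option autoImplicit false

namespace Pool.Agent.L7h8.MW

open Finset MeasureTheory Filter
open scoped ENNReal
open Pool.Agent.Y957.VK (lamw)
open Pool.Agent.L7h88.MW

/-- the end points of the intervals between the squares, on the logarithmic scale -/
noncomputable def ls2 (N : ℕ) : ℝ := Real.log ((N:ℝ) ^ 2)

lemma ls2_mono {N N' : ℕ} (hN : 1 ≤ N) (h : N ≤ N') : ls2 N ≤ ls2 N' := by
  unfold ls2
  have hNr : (1:ℝ) ≤ N := by exact_mod_cast hN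
  have hN' : (N:ℝ) ≤ N' := by exact_mod_cast h
  apply Real.log_le_log (by positivity)
  gcongr

/-- the weighted sums are controlled by the mean value of the windows -/
lemma SN_le (K : ℕ) {N : ℕ} (hN : 1 ≤ N) {u δ : ℝ} (hu : 0 ≤ u) (hu1 : u ≤ 1) (hδ : 0 < δ) (hδ1 : δ ≤ 1)
    (hK : (N + 1) ^ 2 ≤ K) :
    δ * ‖SN N u‖ ≤ (∫ y in (ls2 N)..(ls2 (N + 1)), ‖Gk K δ y‖) +
      δ * (2 * (2 * δ * ((N:ℝ) + 1) ^ 2 + 1) * (1 + Real.log K)) := by
  have hNr : (1:ℝ) ≤ N := by exact_mod_cast hN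
  obtain ⟨a, ha⟩ : ∃ a : ℝ, a = (N:ℝ) ^ 2 := ⟨_, rfl⟩
  obtain ⟨b, hb⟩ : ∃ b : ℝ, b = (N:ℝ) ^ 2 + 2 * u * N := ⟨_, rfl⟩
  have ha1 : 1 ≤ a := by rw [ha]; exact one_le_pow₀ hNr
  have hab : a ≤ b := by
    rw [ha, hb]
    have : 0 ≤ 2 * u * N := by positivity
    linarith
  have hb2 : b ≤ ((N:ℝ) + 1) ^ 2 := by
    rw [hb]
    nlinarith
  have hbK : ⌊b⌋₊ ≤ K := by
    apply Nat.floor_le_of_le
    refine hb2.trans ?_
    exact_mod_cast hK
  have h1 := avg K ha1 hab hbK hδ hδ1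
  have hfa : ⌊a⌋₊ = N ^ 2 := by
    rw [ha]
    exact_mod_cast Nat.floor_natCast (N ^ 2)
  have hSN : SN N u = ∑ n ∈ Ioc ⌊a⌋₊ ⌊b⌋₊, lamw n := by
    unfold SN
    rw [hfa, hb]
  rw [← hSN] at h1
  have hlk : 0 ≤ Real.log K := Real.log_natCast_nonneg K
  have h2 : ‖(δ : ℂ) * SN N u‖ = δ * ‖SN N u‖ := by
    rw [norm_mul, Complex.norm_real, Real.norm_of_nonneg hδ.le]
  have h3 : ‖(δ : ℂ) * SN N u‖ ≤ ‖(δ : ℂ) * SN N u - ∫ y in (Real.log a)..(Real.log b), Gk K δ y‖ +
      ‖∫ y in (Real.log a)..(Real.log b), Gk K δ y‖ := by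
    have := norm_add_le ((δ : ℂ) * SN N u - ∫ y in (Real.log a)..(Real.log b), Gk K δ y) (∫ y in (Real.log a)..(Real.log b), Gk K δ y)
    rwa [sub_add_cancel] at this
  have hlab : Real.log a ≤ Real.log b := Real.log_le_log (by linarith) hab
  have h4 : ‖∫ y in (Real.log a)..(Real.log b), Gk K δ y‖ ≤ ∫ y in (Real.log a)..(Real.log b), ‖Gk K δ y‖ :=
    intervalIntegral.norm_integral_le_integral_norm hlab
  have h5 : ∫ y in (Real.log a)..(Real.log b), ‖Gk K δ y‖ ≤ ∫ y in (ls2 N)..(ls2 (N + 1)), ‖Gk K δ y‖ := by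
    apply intervalIntegral.integral_mono_interval
    · unfold ls2
      rw [ha]
    · exact hlab
    · unfold ls2
      push_cast
      exact Real.log_le_log (by linarith) hb2
    · exact Eventually.of_forall fun y => norm_nonneg _
    · exact Gk_norm_ii K δ _ _
  have h6 : δ * (2 * (2 * δ * b + 1) * (1 + Real.log K)) ≤ δ * (2 * (2 * δ * ((N:ℝ) + 1) ^ 2 + 1) * (1 + Real.log K)) := by
    gcongr
  rw [← h2]
  linarith

lemma sum_J (K : ℕ) (δ : ℝ) {M : ℕ} (hM : 20 ≤ M) :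
    ∑ N ∈ Ioc M (M + M / 5), ∫ y in (ls2 N)..(ls2 (N + 1)), ‖Gk K δ y‖ ≤ ∫ y in (ls2 M)..(ls2 M + 1), ‖Gk K δ y‖ := by
  have h1 : Ioc M (M + M / 5) = Ico (M + 1) (M + M / 5 + 1) := by
    ext n
    rw [Finset.mem_Ioc, Finset.mem_Ico]
    omega
  rw [h1]
  have h2 := intervalIntegral.sum_integral_adjacent_intervals_Ico (f := fun y => ‖Gk K δ y‖) (μ := volume) (a := ls2)
    (m := M + 1) (n := M + M / 5 + 1) (by omega) (fun k _ => Gk_norm_ii K δ _ _)
  rw [h2]
  have hMr : (20:ℝ) ≤ M := by exact_mod_cast hM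
  apply intervalIntegral.integral_mono_interval
  · exact ls2_mono (by omega) (by omega)
  · exact ls2_mono (by omega) (by omega)
  · unfold ls2
    have h3 : (((M + M / 5 + 1 : ℕ) : ℝ)) ≤ 13 / 10 * M := by
      have : 10 * (M + M / 5 + 1) ≤ 13 * M := by omega
      have : ((10 * (M + M / 5 + 1) : ℕ) : ℝ) ≤ ((13 * M : ℕ) : ℝ) := by exact_mod_cast this
      push_cast at this ⊢
      linarith
    have h4 : Real.log ((((M + M / 5 + 1 : ℕ) : ℝ)) ^ 2) ≤ Real.log ((M:ℝ) ^ 2 * Real.exp 1) := by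
      apply Real.log_le_log
      · have : (0:ℝ) < ((M + M / 5 + 1 : ℕ) : ℝ) := by exact_mod_cast (by omega)
        positivity
      · have h5 : (((M + M / 5 + 1 : ℕ) : ℝ)) ^ 2 ≤ (13 / 10 * M) ^ 2 := by
          gcongr
        have h6 := Real.exp_one_gt_d9
        nlinarith [sq_nonneg (M:ℝ)]
    rwa [Real.log_mul (by positivity) (Real.exp_pos _).ne', Real.log_exp] at h4
  · exact Eventually.of_forall fun y => norm_nonneg _
  · exact Gk_norm_ii K δ _ _

/-- the exceptional `N` -/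
def Bad (A N : ℕ) : Prop := ¬ ∀ u v : ℝ, 0 ≤ u → u ≤ v → v ≤ 1 →
    |(pc ((N:ℝ) ^ 2 + 2 * u * N) ((N:ℝ) ^ 2 + 2 * v * N) : ℝ) - (v - u) * N / Real.log N| ≤ N / Real.log N ^ A

open Classical in
lemma block (h : S_PN1) (A : ℕ) :
    ∃ M0 : ℕ, ∀ M : ℕ, M0 ≤ M → (((Ioc M (M + M / 5)).filter (Bad A)).card : ℝ) ≤ M / Real.log M ^ (A + 1) := by
  obtain ⟨D, N0, hD, hN0, hP⟩ := h (2 * (2 * A + 3)) (A + 3)
  have hev1 := log_pow_le (A + 4) (ε := 1) one_pos
  have hev2 : ∀ᶠ X : ℕ in atTop, 40 + 6 * (2:ℝ) ^ A + √D ≤ Real.log X :=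
    (Real.tendsto_log_atTop.comp tendsto_natCast_atTop_atTop).eventually_ge_atTop _
  have hev3 : ∀ᶠ X : ℕ in atTop, N0 + 20 ≤ X := eventually_ge_atTop _
  obtain ⟨M0, hM0⟩ := eventually_atTop.1 ((hev1.and hev2).and hev3)
  refine ⟨M0, fun M hM => ?_⟩
  obtain ⟨⟨h1, h2⟩, h3⟩ := hM0 M hM
  have hMr : (20:ℝ) ≤ M := by
    have : 20 ≤ M := by omega
    exact_mod_cast this
  have hMp : (0:ℝ) < M := by linarith
  obtain ⟨l, hl⟩ : ∃ l : ℝ, l = Real.log M := ⟨_, rfl⟩
  rw [← hl] at h1 h2 ⊢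
  rw [Real.rpow_one] at h1
  have h2A : (1:ℝ) ≤ 2 ^ A := one_le_pow₀ (by norm_num)
  have hsD : 0 ≤ √D := Real.sqrt_nonneg D
  have hl40 : 40 ≤ l := by linarith
  have hl6 : 6 * (2:ℝ) ^ A ≤ l := by linarith
  have hlD : √D ≤ l := by linarith
  have hlp : 0 < l := by linarith
  have hM37 : 37 * l ^ (A + 3) ≤ M := by
    refine le_trans ?_ h1
    rw [pow_succ l (A + 3), mul_comm]
    exact mul_le_mul_of_nonneg_left (by linarith) (by positivity)
  -- the parameters
  obtain ⟨δ, hδ⟩ : ∃ δ : ℝ, δ = 1 / (M * l ^ (A + 3)) := ⟨_, rfl⟩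
  have hδp : 0 < δ := by rw [hδ]; positivity
  have hlA3 : 1 ≤ l ^ (A + 3) := one_le_pow₀ (by linarith)
  have hδ1 : δ ≤ 1 := by
    rw [hδ]
    apply (div_le_one (by positivity)).2
    nlinarith
  obtain ⟨K, hK⟩ : ∃ K : ℕ, K = 8 * M ^ 2 := ⟨_, rfl⟩
  have hKr : (K:ℝ) = 8 * (M:ℝ) ^ 2 := by rw [hK]; push_cast; ring
  have hlogK : Real.log K ≤ 3 * l := by
    rw [hKr, Real.log_mul (by norm_num) (by positivity), Real.log_pow, ← hl]
    have : Real.log 8 ≤ 40 := by
      have := Real.log_le_sub_one_of_pos (show (0:ℝ) < 8 by norm_num)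
      linarith
    push_cast
    linarith
  have hlsM : ls2 M = 2 * l := by
    unfold ls2
    rw [Real.log_pow, hl]
    push_cast
    ring
  have hlsM' : Real.log ((M ^ 2 : ℕ) : ℝ) = 2 * l := by
    rw [← hlsM]
    unfold ls2
    push_cast
    rfl
  -- the input
  have hin := hP (M ^ 2) δ (by nlinarith) hδp hδ1 (by
    rw [hlsM']
    have e1 : √((M ^ 2 : ℕ) : ℝ) = M := by
      push_cast
      exact Real.sqrt_sq hMp.le
    rw [e1, hδ, mul_pow]
    have : 1 / (M * l ^ (A + 3)) * M * (2 ^ (A + 3) * l ^ (A + 3)) = 2 ^ (A + 3) := by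
      field_simp
    rw [this]
    exact one_le_pow₀ (by norm_num))
  rw [hlsM'] at hin
  have hin2 : ∫ y in (2 * l)..(2 * l + 1), ‖Gk K δ y‖ ^ 2 ≤ D * δ ^ 2 * ((M ^ 2 : ℕ) : ℝ) ^ 2 / (2 * l) ^ (2 * (2 * A + 3)) := by
    refine le_trans (le_of_eq ?_) hin
    apply intervalIntegral.integral_congr
    intro y hy
    rw [Set.uIcc_of_le (by linarith)] at hy
    simp only
    rw [Gk_eq]
    have h5 : Real.exp (y + δ) ≤ Real.exp (1 + 1 + 2 * l) := Real.exp_le_exp.2 (by linarith [hy.2])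
    refine h5.trans ?_
    have h6 : Real.exp (2 * l) = (M:ℝ) ^ 2 := by
      rw [← hlsM]
      unfold ls2
      exact Real.exp_log (by positivity)
    rw [Real.exp_add, Real.exp_add, h6, hKr]
    apply mul_le_mul_of_nonneg_right _ (by positivity)
    have := Real.exp_one_lt_d9
    nlinarith [Real.exp_pos 1]
  obtain ⟨J, hJ⟩ : ∃ J : ℝ, J = ∫ y in (2 * l)..(2 * l + 1), ‖Gk K δ y‖ := ⟨_, rfl⟩
  have hJ0 : 0 ≤ J := by
    rw [hJ]
    exact intervalIntegral.integral_nonneg (by linarith) fun y _ => norm_nonneg _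
  have hJle : J ≤ √D * δ * M ^ 2 / l ^ (2 * A + 3) := by
    have h5 : J ^ 2 ≤ (√D * δ * M ^ 2 / l ^ (2 * A + 3)) ^ 2 := by
      rw [hJ]
      refine (cs K δ (2 * l)).trans (hin2.trans ?_)
      have e1 : (√D * δ * M ^ 2 / l ^ (2 * A + 3)) ^ 2 = D * δ ^ 2 * ((M ^ 2 : ℕ) : ℝ) ^ 2 / l ^ (2 * (2 * A + 3)) := by
        rw [div_pow, mul_pow, mul_pow, Real.sq_sqrt hD]
        push_cast
        ring
      rw [e1]
      apply div_le_div_of_nonneg_left (by positivity) (by positivity)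
      apply pow_le_pow_left₀ hlp.le
      linarith
    exact (abs_le_of_sq_le_sq' h5 (by positivity)).2
  have hsum : ∑ N ∈ Ioc M (M + M / 5), ∫ y in (ls2 N)..(ls2 (N + 1)), ‖Gk K δ y‖ ≤ J := by
    have := sum_J K δ (M := M) (by omega)
    rwa [hlsM, ← hJ] at this
  -- the exceptional set
  have hkey : ∀ N ∈ Ioc M (M + M / 5), Bad A N → δ * (M / l ^ (A + 1)) ≤ ∫ y in (ls2 N)..(ls2 (N + 1)), ‖Gk K δ y‖ := by
    intro N hN hB
    rw [Finset.mem_Ioc] at hN
    by_contra hcon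
    push Not at hcon
    apply hB
    have hN1 : (M:ℝ) ≤ N := by exact_mod_cast hN.1.le
    have hN2 : (N:ℝ) + 1 ≤ 13 / 10 * M := by
      have : 10 * (N + 1) ≤ 13 * M := by omega
      have : ((10 * (N + 1) : ℕ) : ℝ) ≤ ((13 * M : ℕ) : ℝ) := by exact_mod_cast this
      push_cast at this
      linarith
    have hNp : (0:ℝ) < N := by linarith
    have hlN1 : l ≤ Real.log N := by
      rw [hl]
      exact Real.log_le_log hMp hN1
    have hlN2 : Real.log (N + 1) ≤ 2 * l := by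
      have : Real.log (N + 1) ≤ Real.log ((M:ℝ) ^ 2) := by
        apply Real.log_le_log (by linarith)
        nlinarith
      rwa [Real.log_pow, ← hl, Nat.cast_ofNat] at this
    have hlN3 : Real.log N ≤ 2 * l := by
      have : Real.log N ≤ Real.log (N + 1) := Real.log_le_log hNp (by linarith)
      linarith
    -- pointwise bound
    have hpt : ∀ u : ℝ, 0 ≤ u → u ≤ 1 → |(Pi N u : ℝ) - u * N / Real.log N| ≤ 3 * (M / l ^ (A + 1)) := by
      intro u hu hu1
      have h5 := SN_le K (N := N) (by omega) hu hu1 hδp hδ1 (by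
        rw [hK]
        have : N + 1 ≤ 2 * M := by omega
        nlinarith)
      have h6 := point (N := N) (by omega) hu hu1
      -- the edges
      have h7 : 2 * (2 * δ * ((N:ℝ) + 1) ^ 2 + 1) * (1 + Real.log K) ≤ M / l ^ (A + 1) := by
        have e1 : ((N:ℝ) + 1) ^ 2 ≤ 2 * M ^ 2 := by nlinarith
        have e2 : 2 * δ * ((N:ℝ) + 1) ^ 2 ≤ 4 * (M / l ^ (A + 3)) := by
          calc 2 * δ * ((N:ℝ) + 1) ^ 2 ≤ 2 * δ * (2 * M ^ 2) := by gcongr
            _ = 4 * (M / l ^ (A + 3)) := by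
                rw [hδ]
                field_simp
                ring
        have e3 : 1 ≤ M / l ^ (A + 3) := by
          rw [one_le_div (by positivity)]
          nlinarith
        have e4 : 2 * (2 * δ * ((N:ℝ) + 1) ^ 2 + 1) ≤ 10 * (M / l ^ (A + 3)) := by linarith
        have hlk : 0 ≤ Real.log K := Real.log_natCast_nonneg K
        calc 2 * (2 * δ * ((N:ℝ) + 1) ^ 2 + 1) * (1 + Real.log K) ≤ 10 * (M / l ^ (A + 3)) * (4 * l) := by
              apply mul_le_mul e4 (by linarith) (by linarith) (by positivity)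
          _ = 40 / l * (M / l ^ (A + 1)) := by
              rw [show A + 3 = A + 1 + 2 by ring, pow_add]
              field_simp
              ring
          _ ≤ 1 * (M / l ^ (A + 1)) := by
              apply mul_le_mul_of_nonneg_right _ (by positivity)
              exact (div_le_one hlp).2 hl40
          _ = _ := one_mul _
      have h8 : ‖SN N u‖ ≤ 2 * (M / l ^ (A + 1)) := by
        have : δ * ‖SN N u‖ ≤ δ * (2 * (M / l ^ (A + 1))) := by
          calc δ * ‖SN N u‖ ≤ δ * (M / l ^ (A + 1)) + δ * (M / l ^ (A + 1)) := by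
                refine h5.trans (add_le_add hcon.le ?_)
                exact mul_le_mul_of_nonneg_left h7 hδp.le
            _ = _ := by ring
        exact le_of_mul_le_mul_left this hδp
      have h9 : 8 * Real.log (N + 1) ^ 2 + 5 ≤ M / l ^ (A + 1) := by
        have e1 : 0 ≤ Real.log (N + 1) := Real.log_nonneg (by linarith)
        have e2 : Real.log (N + 1) ^ 2 ≤ (2 * l) ^ 2 := pow_le_pow_left₀ e1 hlN2 2
        rw [le_div_iff₀ (by positivity)]
        have e3 : 8 * Real.log (N + 1) ^ 2 + 5 ≤ 37 * l ^ 2 := by nlinarith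
        calc (8 * Real.log (N + 1) ^ 2 + 5) * l ^ (A + 1) ≤ 37 * l ^ 2 * l ^ (A + 1) := by gcongr
          _ = 37 * l ^ (A + 3) := by ring
          _ ≤ M := hM37
      have h10 : |2 * Real.log N * Pi N u - 2 * u * N| ≤ 3 * (M / l ^ (A + 1)) := by linarith
      have hlNp : 0 < Real.log N := by linarith
      have h11 : |(Pi N u : ℝ) - u * N / Real.log N| = |2 * Real.log N * Pi N u - 2 * u * N| / (2 * Real.log N) := by
        rw [eq_div_iff (by positivity), ← abs_of_pos (show 0 < 2 * Real.log N by positivity), ← abs_mul,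
          abs_of_pos (show 0 < 2 * Real.log N by positivity)]
        congr 1
        field_simp
      rw [h11]
      refine le_trans (div_le_self (abs_nonneg _) ?_) h10
      linarith
    intro u v hu huv hv
    rw [pc_eq hu huv]
    have q1 := hpt u hu (huv.trans hv)
    have q2 := hpt v (hu.trans huv) hv
    have e1 : (Pi N v : ℝ) - Pi N u - (v - u) * N / Real.log N =
        ((Pi N v : ℝ) - v * N / Real.log N) - ((Pi N u : ℝ) - u * N / Real.log N) := by ring
    rw [e1]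
    refine (abs_sub _ _).trans ?_
    have e2 : 6 * ((M:ℝ) / l ^ (A + 1)) ≤ N / Real.log N ^ A := by
      have hlN : Real.log N ^ A ≤ (2 * l) ^ A := pow_le_pow_left₀ (by linarith) hlN3 _
      have hlNp : 0 < Real.log N := by linarith
      calc 6 * ((M:ℝ) / l ^ (A + 1)) = 6 / l * (M / l ^ A) := by
            rw [pow_succ]
            field_simp
        _ ≤ 1 / 2 ^ A * (M / l ^ A) := by
            apply mul_le_mul_of_nonneg_right _ (by positivity)
            rw [div_le_div_iff₀ hlp (by positivity)]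
            linarith
        _ = M / (2 * l) ^ A := by
            rw [mul_pow]
            field_simp
        _ ≤ N / (2 * l) ^ A := by gcongr
        _ ≤ N / Real.log N ^ A := div_le_div_of_nonneg_left hNp.le (by positivity) hlN
    linarith
  -- Markov
  have hcard : (((Ioc M (M + M / 5)).filter (Bad A)).card : ℝ) * (δ * (M / l ^ (A + 1))) ≤ J := by
    calc (((Ioc M (M + M / 5)).filter (Bad A)).card : ℝ) * (δ * (M / l ^ (A + 1)))
        = ∑ N ∈ (Ioc M (M + M / 5)).filter (Bad A), δ * (M / l ^ (A + 1)) := by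
          rw [Finset.sum_const, nsmul_eq_mul]
      _ ≤ ∑ N ∈ (Ioc M (M + M / 5)).filter (Bad A), ∫ y in (ls2 N)..(ls2 (N + 1)), ‖Gk K δ y‖ := by
          apply Finset.sum_le_sum
          intro N hN
          rw [Finset.mem_filter] at hN
          exact hkey N hN.1 hN.2
      _ ≤ ∑ N ∈ Ioc M (M + M / 5), ∫ y in (ls2 N)..(ls2 (N + 1)), ‖Gk K δ y‖ := by
          apply Finset.sum_le_sum_of_subset_of_nonneg (Finset.filter_subset _ _)
          intro N hN _
          rw [Finset.mem_Ioc] at hN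
          exact intervalIntegral.integral_nonneg (ls2_mono (by omega) (by omega)) fun y _ => norm_nonneg _
      _ ≤ J := hsum
  have hfin : (((Ioc M (M + M / 5)).filter (Bad A)).card : ℝ) * (δ * (M / l ^ (A + 1))) ≤
      (M / l ^ (A + 1)) * (δ * (M / l ^ (A + 1))) := by
    refine hcard.trans (hJle.trans ?_)
    calc √D * δ * M ^ 2 / l ^ (2 * A + 3) ≤ l * δ * M ^ 2 / l ^ (2 * A + 3) := by gcongr
      _ = (M / l ^ (A + 1)) * (δ * (M / l ^ (A + 1))) := by
          rw [show 2 * A + 3 = (A + 1) + (A + 1) + 1 by ring, pow_add, pow_add, pow_one]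
          field_simp
  exact le_of_mul_le_mul_right hfin (by positivity)

end Pool.Agent.L7h8.MW
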